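import Mathlib

/-! Existence of pairwise independent encodings fooling a given function (second moment). -/

namespace Pool.Agent.Lib.MP_eed1a0_lc

open Finset

/-- The number of triples `(b, c, ω)` with `b, c < n`, `ω < W` and `G (s b) (t c) ω = y`. -/
def cnt (n W : ℕ) (s t : ℕ → ℕ) (G : ℕ → ℕ → ℕ → ℕ) (y : ℕ) : ℕ :=
  ∑ b ∈ range n, ∑ c ∈ range n, ∑ w ∈ range W, if G (s b) (t c) w = y then 1 else 0

/-- `y` is popular: it is a value of `G` on at least a fraction `2 / B` of all the triples. -/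
def Pop (q B W : ℕ) (G : ℕ → ℕ → ℕ → ℕ) (y : ℕ) : Prop :=
  2 * q ^ 2 * W ≤ B * cnt q W (fun x => x) (fun x => x) G y

instance (q B W : ℕ) (G : ℕ → ℕ → ℕ → ℕ) (y : ℕ) : Decidable (Pop q B W G y) := by
  unfold Pop; infer_instance

/-- The sum of the squares of the cover counts of the unpopular values. -/
def foolSum (q A B W : ℕ) (s t : ℕ → ℕ) (G : ℕ → ℕ → ℕ → ℕ) : ℕ :=
  ∑ a ∈ range A, ∑ b ∈ range B, ∑ c ∈ range B, ∑ w ∈ range W,
    if Pop q B W G (G (s (a * B + b)) (t (a * B + c)) w) then 0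
    else cnt B W (fun b => s (a * B + b)) (fun c => t (a * B + c)) G
      (G (s (a * B + b)) (t (a * B + c)) w)

/-- pairwise independence of affine maps -/
theorem sum_affine {F : Type*} [Field F] [Fintype F] {M : Type*} [AddCommMonoid M]
    {i j : F} (hij : i ≠ j) (f : F → F → M) :
    ∑ p : F × F, f (p.1 + p.2 * i) (p.1 + p.2 * j) = ∑ p : F × F, f p.1 p.2 := by
  have hinj : Function.Injective (fun p : F × F => (p.1 + p.2 * i, p.1 + p.2 * j)) := by
    rintro ⟨a, b⟩ ⟨a', b'⟩ h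
    simp only [Prod.mk.injEq] at h
    obtain ⟨h1, h2⟩ := h
    have h3 : (b - b') * (i - j) = 0 := by linear_combination h1 - h2
    rcases mul_eq_zero.1 h3 with h4 | h4
    · have hb : b = b' := sub_eq_zero.1 h4
      subst hb
      simp at h1
      simp [h1]
    · exact absurd (sub_eq_zero.1 h4) hij
  have hbij := Finite.injective_iff_bijective.1 hinj
  exact hbij.sum_comp (fun p : F × F => f p.1 p.2)

section

variable {q : ℕ} [Fact q.Prime]

/-- the joint collision count -/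
def J (q B W : ℕ) (G : ℕ → ℕ → ℕ → ℕ) (x x' u u' : ℕ) : ℕ :=
  ∑ w ∈ range W, ∑ w' ∈ range W,
    if Pop q B W G (G x x' w) then 0 else if G u u' w' = G x x' w then 1 else 0

theorem foolSum_eq (q A B W : ℕ) (s t : ℕ → ℕ) (G : ℕ → ℕ → ℕ → ℕ) :
    foolSum q A B W s t G = ∑ a ∈ range A, ∑ b ∈ range B, ∑ c ∈ range B, ∑ b' ∈ range B,
      ∑ c' ∈ range B, J q B W G (s (a * B + b)) (t (a * B + c)) (s (a * B + b'))
        (t (a * B + c')) := by
  unfold foolSum J cnt
  refine sum_congr rfl fun a _ => sum_congr rfl fun b _ => sum_congr rfl fun c _ => ?_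
  have h1 : ∀ b' ∈ range B, (∑ c' ∈ range B, ∑ w ∈ range W, ∑ w' ∈ range W,
      if Pop q B W G (G (s (a * B + b)) (t (a * B + c)) w) then 0
      else if G (s (a * B + b')) (t (a * B + c')) w' = G (s (a * B + b)) (t (a * B + c)) w then 1
      else 0) = ∑ w ∈ range W, ∑ c' ∈ range B, ∑ w' ∈ range W,
      if Pop q B W G (G (s (a * B + b)) (t (a * B + c)) w) then 0
      else if G (s (a * B + b')) (t (a * B + c')) w' = G (s (a * B + b)) (t (a * B + c)) w then 1
      else 0 := fun b' _ => sum_comm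
  rw [sum_congr rfl h1, sum_comm]
  refine sum_congr rfl fun w _ => ?_
  split_ifs with h
  · simp
  · rfl

theorem sum_zmod_val {q : ℕ} [Fact q.Prime] {M : Type*} [AddCommMonoid M] (f : ℕ → M) :
    ∑ u : ZMod q, f u.val = ∑ b ∈ range q, f b := by
  rcases q with _ | n
  · exact absurd (Fact.out : Nat.Prime 0) (by norm_num)
  · exact Fin.sum_univ_eq_sum_range f (n + 1)

/-- the number of collisions over all the pairs of arguments, for the unpopular values -/
theorem sum_J_le (q B W : ℕ) [Fact q.Prime] (G : ℕ → ℕ → ℕ → ℕ) :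
    B * ∑ p : ZMod q × ZMod q, ∑ p' : ZMod q × ZMod q,
      J q B W G p.1.val p'.1.val p.2.val p'.2.val ≤ 2 * q ^ 4 * W ^ 2 := by
  have h1 : ∑ p : ZMod q × ZMod q, ∑ p' : ZMod q × ZMod q,
      J q B W G p.1.val p'.1.val p.2.val p'.2.val =
      ∑ x ∈ range q, ∑ x' ∈ range q, ∑ w ∈ range W,
        if Pop q B W G (G x x' w) then 0 else
          cnt q W (fun x => x) (fun x => x) G (G x x' w) := by
    simp only [Fintype.sum_prod_type]
    rw [sum_zmod_val (fun x => ∑ u : ZMod q, ∑ x' : ZMod q, ∑ u' : ZMod q,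
      J q B W G x x'.val u.val u'.val)]
    refine sum_congr rfl fun x _ => ?_
    rw [sum_comm, sum_zmod_val (fun x' => ∑ u : ZMod q, ∑ u' : ZMod q,
      J q B W G x x' u.val u'.val)]
    refine sum_congr rfl fun x' _ => ?_
    rw [sum_zmod_val (fun u => ∑ u' : ZMod q, J q B W G x x' u u'.val)]
    have h2 : ∀ u ∈ range q, ∑ u' : ZMod q, J q B W G x x' u u'.val =
      ∑ w ∈ range W, ∑ u' ∈ range q, ∑ w' ∈ range W,
        if Pop q B W G (G x x' w) then 0 else if G u u' w' = G x x' w then 1 else 0 := by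
      intro u _
      rw [sum_zmod_val (fun u' => J q B W G x x' u u')]
      unfold J
      rw [sum_comm]
    rw [sum_congr rfl h2, sum_comm]
    refine sum_congr rfl fun w _ => ?_
    unfold cnt
    split_ifs with h
    · simp
    · rfl
  rw [h1, mul_sum]
  calc ∑ x ∈ range q, B * ∑ x' ∈ range q, ∑ w ∈ range W,
        (if Pop q B W G (G x x' w) then 0 else
          cnt q W (fun x => x) (fun x => x) G (G x x' w))
      ≤ ∑ x ∈ range q, ∑ x' ∈ range q, ∑ w ∈ range W, 2 * q ^ 2 * W := by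
        refine sum_le_sum fun x _ => ?_
        rw [mul_sum]
        refine sum_le_sum fun x' _ => ?_
        rw [mul_sum]
        refine sum_le_sum fun w _ => ?_
        split_ifs with h
        · simp
        · unfold Pop at h
          exact (not_le.1 h).le
    _ = 2 * q ^ 4 * W ^ 2 := by
        simp only [sum_const, card_range, smul_eq_mul]
        ring

theorem J_le (q B W : ℕ) (G : ℕ → ℕ → ℕ → ℕ) (x x' u u' : ℕ) : J q B W G x x' u u' ≤ W ^ 2 := by
  unfold J
  calc _ ≤ ∑ w ∈ range W, ∑ w' ∈ range W, 1 := by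
        refine sum_le_sum fun w _ => sum_le_sum fun w' _ => ?_
        split_ifs <;> simp
    _ = W ^ 2 := by simp [sq]

/-- The affine map modulo `q`, on natural numbers. -/
def aff (q α β i : ℕ) : ℕ := (α + β * i) % q

theorem aff_val (α β : ZMod q) (i : ℕ) : aff q α.val β.val i = (α + β * (i : ZMod q)).val := by
  unfold aff
  rw [ZMod.val_add, ZMod.val_mul, ZMod.val_natCast]
  simp [Nat.add_mod, Nat.mul_mod]

theorem sum_J_aff_le (A B W : ℕ) (hAB : A * B ≤ q) (G : ℕ → ℕ → ℕ → ℕ)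
    {a b c b' c' : ℕ} (ha : a < A) (hb : b < B) (hc : c < B) (hb' : b' < B) (hc' : c' < B) :
    ∑ p : ZMod q × ZMod q, ∑ p' : ZMod q × ZMod q,
      J q B W G (aff q p.1.val p.2.val (a * B + b)) (aff q p'.1.val p'.2.val (a * B + c))
        (aff q p.1.val p.2.val (a * B + b')) (aff q p'.1.val p'.2.val (a * B + c')) ≤
    (∑ p : ZMod q × ZMod q, ∑ p' : ZMod q × ZMod q,
      J q B W G p.1.val p'.1.val p.2.val p'.2.val) +
      (if b = b' then q ^ 4 * W ^ 2 else 0) + (if c = c' then q ^ 4 * W ^ 2 else 0) := by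
  have hq : Nat.card (ZMod q) = q := Nat.card_zmod q
  have hlt : ∀ d, d < B → a * B + d < q := by
    intro d hd
    calc a * B + d < a * B + B := by omega
      _ = (a + 1) * B := by ring
      _ ≤ A * B := Nat.mul_le_mul_right _ ha
      _ ≤ q := hAB
  have hne : ∀ d e, d < B → e < B → d ≠ e → ((a * B + d : ℕ) : ZMod q) ≠ ((a * B + e : ℕ) : ZMod q) := by
    intro d e hd he hde h
    have := congrArg ZMod.val h
    rw [ZMod.val_natCast, ZMod.val_natCast, Nat.mod_eq_of_lt (hlt d hd),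
      Nat.mod_eq_of_lt (hlt e he)] at this
    omega
  have hall : ∑ p : ZMod q × ZMod q, ∑ p' : ZMod q × ZMod q,
      J q B W G (aff q p.1.val p.2.val (a * B + b)) (aff q p'.1.val p'.2.val (a * B + c))
        (aff q p.1.val p.2.val (a * B + b')) (aff q p'.1.val p'.2.val (a * B + c')) ≤
      q ^ 4 * W ^ 2 := by
    calc _ ≤ ∑ p : ZMod q × ZMod q, ∑ p' : ZMod q × ZMod q, W ^ 2 :=
          sum_le_sum fun p _ => sum_le_sum fun p' _ => J_le _ _ _ _ _ _ _ _
      _ = q ^ 4 * W ^ 2 := by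
          simp only [sum_const, card_univ, Fintype.card_prod, ZMod.card, smul_eq_mul]
          ring
  by_cases h1 : b = b'
  · rw [if_pos h1]
    exact hall.trans (by omega)
  by_cases h2 : c = c'
  · rw [if_pos h2]
    exact hall.trans (by omega)
  rw [if_neg h1, if_neg h2]
  simp only [aff_val, add_zero]
  have e1 := fun p : ZMod q × ZMod q => sum_affine (hne c c' hc hc' h2)
    (fun x' u' => J q B W G (p.1 + p.2 * ((a * B + b : ℕ) : ZMod q)).val x'.val
      (p.1 + p.2 * ((a * B + b' : ℕ) : ZMod q)).val u'.val)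
  have e2 := sum_affine (hne b b' hb hb' h1)
    (fun x u => ∑ p' : ZMod q × ZMod q, J q B W G x.val p'.1.val u.val p'.2.val)
  calc _ = _ := sum_congr rfl fun p _ => e1 p
    _ = _ := e2
    _ ≤ _ := le_rfl

theorem sum_foolSum_le (A B W : ℕ) (hAB : A * B ≤ q) (G : ℕ → ℕ → ℕ → ℕ) :
    ∑ p : ZMod q × ZMod q, ∑ p' : ZMod q × ZMod q,
      foolSum q A B W (aff q p.1.val p.2.val) (aff q p'.1.val p'.2.val) G
      ≤ 4 * A * B ^ 3 * q ^ 4 * W ^ 2 := by
  set K1 := ∑ p : ZMod q × ZMod q, ∑ p' : ZMod q × ZMod q,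
      J q B W G p.1.val p'.1.val p.2.val p'.2.val with hK1
  have hK : B * K1 ≤ 2 * q ^ 4 * W ^ 2 := sum_J_le q B W G
  simp only [foolSum_eq]
  rw [← sum_product']
  rw [sum_comm]
  calc _ ≤ ∑ a ∈ range A, ∑ b ∈ range B, ∑ c ∈ range B, ∑ b' ∈ range B, ∑ c' ∈ range B,
        (K1 + (if b = b' then q ^ 4 * W ^ 2 else 0) + (if c = c' then q ^ 4 * W ^ 2 else 0)) := by
        refine sum_le_sum fun a ha => ?_
        rw [sum_comm]
        refine sum_le_sum fun b hb => ?_
        rw [sum_comm]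
        refine sum_le_sum fun c hc => ?_
        rw [sum_comm]
        refine sum_le_sum fun b' hb' => ?_
        rw [sum_comm]
        refine sum_le_sum fun c' hc' => ?_
        rw [sum_product]
        exact sum_J_aff_le A B W hAB G (mem_range.1 ha) (mem_range.1 hb) (mem_range.1 hc)
          (mem_range.1 hb') (mem_range.1 hc')
    _ = A * (B ^ 4 * K1 + 2 * (B ^ 3 * (q ^ 4 * W ^ 2))) := by
        have : ∀ b ∈ range B, ∀ c ∈ range B, ∑ b' ∈ range B, ∑ c' ∈ range B,
          (K1 + (if b = b' then q ^ 4 * W ^ 2 else 0) + (if c = c' then q ^ 4 * W ^ 2 else 0)) =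
            B ^ 2 * K1 + 2 * (B * (q ^ 4 * W ^ 2)) := by
          intro b hb c hc
          simp only [sum_add_distrib, sum_const, card_range, smul_eq_mul, sum_ite_eq, hc,
            if_true]
          rw [← mul_sum, sum_ite_eq, if_pos hb]
          ring
        rw [sum_congr rfl fun a _ => sum_congr rfl fun b hb => sum_congr rfl fun c hc =>
          this b hb c hc]
        simp only [sum_const, card_range, smul_eq_mul]
        ring
    _ ≤ 4 * A * B ^ 3 * q ^ 4 * W ^ 2 := by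
        have h1 : B ^ 4 * K1 ≤ B ^ 3 * (2 * q ^ 4 * W ^ 2) := by
          calc B ^ 4 * K1 = B ^ 3 * (B * K1) := by ring
            _ ≤ _ := Nat.mul_le_mul_left _ hK
        calc A * (B ^ 4 * K1 + 2 * (B ^ 3 * (q ^ 4 * W ^ 2)))
            ≤ A * (B ^ 3 * (2 * q ^ 4 * W ^ 2) + 2 * (B ^ 3 * (q ^ 4 * W ^ 2))) := by
              gcongr
          _ = _ := by ring

theorem aff_injOn {N : ℕ} (hN : N ≤ q) (α β : ZMod q) (hβ : β ≠ 0) :
    ∀ i < N, ∀ j < N, aff q α.val β.val i = aff q α.val β.val j → i = j := by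
  intro i hi j hj h
  rw [aff_val, aff_val] at h
  have h1 : α + β * (i : ZMod q) = α + β * (j : ZMod q) := ZMod.val_injective q h
  have h2 : β * (i : ZMod q) = β * (j : ZMod q) := add_left_cancel h1
  have h3 : (i : ZMod q) = (j : ZMod q) := mul_left_cancel₀ hβ h2
  have := congrArg ZMod.val h3
  rwa [ZMod.val_natCast, ZMod.val_natCast, Nat.mod_eq_of_lt (by omega),
      Nat.mod_eq_of_lt (by omega)] at this

theorem exists_fool (A B W : ℕ) (hAB : A * B ≤ q) (G : ℕ → ℕ → ℕ → ℕ) :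
    ∃ α β α' β' : ℕ, (∀ i < A * B, ∀ j < A * B, aff q α β i = aff q α β j → i = j) ∧
      (∀ i < A * B, ∀ j < A * B, aff q α' β' i = aff q α' β' j → i = j) ∧
      foolSum q A B W (aff q α β) (aff q α' β') G ≤ 16 * A * B ^ 3 * W ^ 2 := by
  by_contra hcon
  push Not at hcon
  have hq2 : 2 ≤ q := (Fact.out : q.Prime).two_le
  set R : Finset (ZMod q × ZMod q) := (univ : Finset (ZMod q)) ×ˢ (univ.erase 0) with hR
  have hcard : R.card = q * (q - 1) := by
    rw [hR, card_product, card_erase_of_mem (mem_univ _), card_univ, ZMod.card]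
  have hlow : ∀ p ∈ R, ∀ p' ∈ R, 16 * A * B ^ 3 * W ^ 2 + 1 ≤
      foolSum q A B W (aff q p.1.val p.2.val) (aff q p'.1.val p'.2.val) G := by
    intro p hp p' hp'
    have hp2 : p.2 ≠ 0 := by
      rw [hR, mem_product] at hp
      exact (mem_erase.1 hp.2).1
    have hp2' : p'.2 ≠ 0 := by
      rw [hR, mem_product] at hp'
      exact (mem_erase.1 hp'.2).1
    exact hcon _ _ _ _ (aff_injOn hAB _ _ hp2) (aff_injOn hAB _ _ hp2')
  have h1 : (q * (q - 1)) * ((q * (q - 1)) * (16 * A * B ^ 3 * W ^ 2 + 1)) ≤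
      4 * A * B ^ 3 * q ^ 4 * W ^ 2 := by
    calc _ = ∑ p ∈ R, ∑ p' ∈ R, (16 * A * B ^ 3 * W ^ 2 + 1) := by
          simp only [sum_const, hcard, smul_eq_mul]
      _ ≤ ∑ p ∈ R, ∑ p' ∈ R,
          foolSum q A B W (aff q p.1.val p.2.val) (aff q p'.1.val p'.2.val) G :=
          sum_le_sum fun p hp => sum_le_sum fun p' hp' => hlow p hp p' hp'
      _ ≤ ∑ p ∈ R, ∑ p' : ZMod q × ZMod q,
          foolSum q A B W (aff q p.1.val p.2.val) (aff q p'.1.val p'.2.val) G :=
          sum_le_sum fun p hp => sum_le_sum_of_subset (subset_univ _)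
      _ ≤ ∑ p : ZMod q × ZMod q, ∑ p' : ZMod q × ZMod q,
          foolSum q A B W (aff q p.1.val p.2.val) (aff q p'.1.val p'.2.val) G :=
          sum_le_sum_of_subset (subset_univ _)
      _ ≤ _ := sum_foolSum_le A B W hAB G
  obtain ⟨r, rfl⟩ : ∃ r, q = r + 1 := ⟨q - 1, by omega⟩
  simp only [Nat.add_sub_cancel] at h1
  have hr : 1 ≤ r := by omega
  have h2 : (r + 1) ^ 2 ≤ 4 * r ^ 2 := by nlinarith
  have h3 : 4 * A * B ^ 3 * (r + 1) ^ 4 * W ^ 2 ≤ (r + 1) ^ 2 * r ^ 2 * (16 * A * B ^ 3 * W ^ 2) := by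
    calc 4 * A * B ^ 3 * (r + 1) ^ 4 * W ^ 2 = (4 * A * B ^ 3 * (r + 1) ^ 2 * W ^ 2) * (r + 1) ^ 2 := by ring
      _ ≤ (4 * A * B ^ 3 * (r + 1) ^ 2 * W ^ 2) * (4 * r ^ 2) := Nat.mul_le_mul_left _ h2
      _ = _ := by ring
  have h4 : (r + 1) * r * ((r + 1) * r * (16 * A * B ^ 3 * W ^ 2 + 1)) =
      (r + 1) ^ 2 * r ^ 2 * (16 * A * B ^ 3 * W ^ 2) + (r + 1) ^ 2 * r ^ 2 := by ring
  have h5 : 0 < (r + 1) ^ 2 * r ^ 2 := by positivity
  omega

end

end Pool.Agent.Lib.MP_eed1a0_lc
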