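import Mathlib

/-!
# Kolmogorov complexity, complexity profiles and randomized algorithms

Strings are finite binary strings, i.e. elements of `List Bool`.
-/

namespace Pool.Agent.Lib.MP_eed1a0_lc

/-- `U` is an optimal decompressor for plain Kolmogorov complexity: it is partial computable, and
every partial computable `V` is simulated by `U` with programs longer by at most a constant. -/
def IsOptimal (U : List Bool →. List Bool) : Prop :=
  Partrec U ∧ ∀ V : List Bool →. List Bool, Partrec V →
    ∃ d : ℕ, ∀ p z : List Bool, z ∈ V p → ∃ p' : List Bool, z ∈ U p' ∧ p'.length ≤ p.length + d

/-- The plain Kolmogorov complexity `C(z)` of the string `z` with respect to `U`: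
the least length of a program from which `U` computes `z`. -/
noncomputable def KC (U : List Bool →. List Bool) (z : List Bool) : ℕ :=
  sInf {n | ∃ p : List Bool, z ∈ U p ∧ p.length = n}

/-- The string encoding a tuple of strings, obtained by iterating the pairing `pr`. -/
def tupleCode (pr : List Bool → List Bool → List Bool) : List (List Bool) → List Bool
  | [] => []
  | [z] => z
  | z :: w :: zs => pr z (tupleCode pr (w :: zs))

/-- The complexity profile of a tuple of strings: the list of the complexities of all its nonempty
subtuples (`List.sublists` lists the subtuples in an order depending only on the positions). -/
noncomputable def profile (U : List Bool →. List Bool) (pr : List Bool → List Bool → List Bool)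
    (zs : List (List Bool)) : List ℕ :=
  (zs.sublists.filter (fun s => !s.isEmpty)).map (fun s => KC U (tupleCode pr s))

/-- The total length of a tuple of strings. -/
def totalLength (zs : List (List Bool)) : ℕ := (zs.map List.length).sum

/-- The data handed to an algorithm: the tuple `x`, a profile, and a total length. -/
abbrev Input := List (List Bool) × List ℕ × ℕ

/-- A randomized algorithm: on an input `i` it tosses `coins i` fair coins and then outputs the
tuple of strings `run (i, r)`, where `r` is the string of the outcomes; both `coins` and `run` are
total computable functions. (Every probabilistic polynomial-time algorithm is of this form.) -/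
structure RandAlg where
  /-- the number of coins tossed -/
  coins : Input → ℕ
  /-- the output on an input and a string of coin tosses -/
  run : Input × List Bool → List (List Bool)
  coins_computable : Computable coins
  run_computable : Computable run

/-- `y'` is a correct answer for `x, y` with precision `c · log n`: it is a tuple of as many strings
as `y`, and the profile of `(x, y')` is within `c · log n` of the profile of `(x, y)` in every
coordinate, `n` being the total length of `(x, y)`. -/
def Valid (U : List Bool →. List Bool) (pr : List Bool → List Bool → List Bool) (c : ℝ)
    (x y y' : List (List Bool)) : Prop :=
  y'.length = y.length ∧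
    List.Forall₂ (fun a b : ℕ => |(a : ℝ) - (b : ℝ)| ≤ c * Real.log (totalLength (x ++ y)))
      (profile U pr (x ++ y')) (profile U pr (x ++ y))

/-- The input given to an algorithm for the instance `x, y`: the tuple `x`, the profile of `(x, y)`
and the total length of `(x, y)`. -/
noncomputable def input (U : List Bool →. List Bool) (pr : List Bool → List Bool → List Bool)
    (x y : List (List Bool)) : Input :=
  (x, profile U pr (x ++ y), totalLength (x ++ y))

/-- The probability, over the coin tosses, that the algorithm `M` outputs a correct answer for the
instance `x, y` with precision `c · log n`. -/
noncomputable def successProb (U : List Bool →. List Bool)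
    (pr : List Bool → List Bool → List Bool) (M : RandAlg) (c : ℝ) (x y : List (List Bool)) : ℝ :=
  (Nat.card {r : Fin (M.coins (input U pr x y)) → Bool //
      Valid U pr c x y (M.run (input U pr x y, List.ofFn r))} : ℝ) /
    2 ^ M.coins (input U pr x y)

end Pool.Agent.Lib.MP_eed1a0_lc
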