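import Mathlib
import Pool.Agent.Lib.MP_eed1a0_lc.Core1
import Pool.Agent.Lib.MP_eed1a0_lc.Defs

section

section

/-! Computability toolbox: bounded sums, arithmetic, bit strings. -/

namespace Pool.Agent.Lib.MP_eed1a0_lc

open Encodable

section arith

variable {α : Type*} [Primcodable α]

theorem comp_add {f g : α → ℕ} (hf : Computable f) (hg : Computable g) :
    Computable fun a => f a + g a := Primrec.nat_add.to_comp.comp hf hg

theorem comp_mul {f g : α → ℕ} (hf : Computable f) (hg : Computable g) :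
    Computable fun a => f a * g a := Primrec.nat_mul.to_comp.comp hf hg

theorem comp_div {f g : α → ℕ} (hf : Computable f) (hg : Computable g) :
    Computable fun a => f a / g a := Primrec.nat_div.to_comp.comp hf hg

theorem comp_mod {f g : α → ℕ} (hf : Computable f) (hg : Computable g) :
    Computable fun a => f a % g a := Primrec.nat_mod.to_comp.comp hf hg

theorem primrec₂_pow : Primrec₂ ((· ^ ·) : ℕ → ℕ → ℕ) :=
  Primrec₂.unpaired'.1 Nat.Primrec.pow

theorem comp_pow {f g : α → ℕ} (hf : Computable f) (hg : Computable g) :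
    Computable fun a => f a ^ g a := primrec₂_pow.to_comp.comp hf hg

theorem comp_sum_range {f : α → ℕ → ℕ} {g : α → ℕ} (hf : Computable₂ f) (hg : Computable g) :
    Computable fun a => ∑ i ∈ Finset.range (g a), f a i := by
  have h : Computable₂ (fun (a : α) (p : ℕ × ℕ) => p.2 + f a p.1) :=
    comp_add (Computable.snd.comp Computable.snd)
      (hf.comp Computable.fst (Computable.fst.comp Computable.snd))
  refine (Computable.nat_rec hg (Computable.const 0) h).of_eq ?_
  intro a
  induction g a with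
  | zero => simp
  | succ n ih => simp only [Finset.sum_range_succ, ← ih]

theorem comp_ite {p : α → Prop} [DecidablePred p] {σ : Type*} [Primcodable σ] {f g : α → σ}
    (hp : ComputablePred p) (hf : Computable f) (hg : Computable g) :
    Computable fun a => if p a then f a else g a := by
  simpa [Bool.cond_decide] using hp.decide.cond hf hg

theorem cpred_eq {σ : Type*} [Primcodable σ] {f g : α → σ}
    (hf : Computable f) (hg : Computable g) : ComputablePred fun a => f a = g a := by
  classical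
  have h := (Primrec.eq (α := σ)).decide.to_comp.comp hf hg
  exact Computable.computablePred h

theorem cpred_le {f g : α → ℕ}
    (hf : Computable f) (hg : Computable g) : ComputablePred fun a => f a ≤ g a := by
  have h := Primrec.nat_le.decide.to_comp.comp hf hg
  exact Computable.computablePred h

theorem cpred_lt {f g : α → ℕ}
    (hf : Computable f) (hg : Computable g) : ComputablePred fun a => f a < g a := by
  have h := Primrec.nat_lt.decide.to_comp.comp hf hg
  exact Computable.computablePred h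

theorem cpred_and {p q : α → Prop}
    (hp : ComputablePred p) (hq : ComputablePred q) : ComputablePred fun a => p a ∧ q a := by
  classical
  have h := Primrec.and.to_comp.comp hp.decide hq.decide
  refine Computable.computablePred (h.of_eq ?_)
  intro a; simp

theorem cpred_or {p q : α → Prop}
    (hp : ComputablePred p) (hq : ComputablePred q) : ComputablePred fun a => p a ∨ q a := by
  classical
  have h := Primrec.or.to_comp.comp hp.decide hq.decide
  refine Computable.computablePred (h.of_eq ?_)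
  intro a; simp

end arith

end Pool.Agent.Lib.MP_eed1a0_lc
end

section

/-! Bit strings and numbers. -/

namespace Pool.Agent.Lib.MP_eed1a0_lc

open Encodable

/-- The string formed by the `m` lowest binary digits of `v`. -/
def bitsOf (m v : ℕ) : List Bool := (List.range m).map (fun i => v.testBit i)

/-- The number with a given string of binary digits (lowest digit first). -/
def val (z : List Bool) : ℕ := z.foldr (fun b acc => 2 * acc + cond b 1 0) 0

@[simp] theorem length_bitsOf (m v : ℕ) : (bitsOf m v).length = m := by simp [bitsOf]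

@[simp] theorem val_nil : val [] = 0 := rfl

@[simp] theorem val_cons (b : Bool) (z : List Bool) :
    val (b :: z) = 2 * val z + cond b 1 0 := rfl

theorem bitsOf_succ (m v : ℕ) : bitsOf (m + 1) v = v.testBit 0 :: bitsOf m (v / 2) := by
  unfold bitsOf
  rw [List.range_succ_eq_map]
  simp [Nat.testBit_succ, Function.comp_def]

theorem val_bitsOf (m v : ℕ) : val (bitsOf m v) = v % 2 ^ m := by
  induction m generalizing v with
  | zero => simp [bitsOf, Nat.mod_one]
  | succ m ih =>
    rw [bitsOf_succ, val_cons, ih, Nat.testBit_zero]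
    have h1 : v % 2 ^ (m + 1) = v % 2 + 2 * (v / 2 % 2 ^ m) := by
      rw [pow_succ, mul_comm (2 ^ m) 2, Nat.mod_mul]
    rw [h1]
    rcases Nat.mod_two_eq_zero_or_one v with h | h
    · simp [h]
    · simp [h]; omega

theorem bitsOf_injOn {m v w : ℕ} (hv : v < 2 ^ m) (hw : w < 2 ^ m)
    (h : bitsOf m v = bitsOf m w) : v = w := by
  have := congrArg val h
  rwa [val_bitsOf, val_bitsOf, Nat.mod_eq_of_lt hv, Nat.mod_eq_of_lt hw] at this

theorem val_lt (z : List Bool) : val z < 2 ^ z.length := by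
  induction z with
  | nil => simp
  | cons b z ih =>
    rw [val_cons, List.length_cons, pow_succ]
    cases b
    · simp; omega
    · simp; omega

theorem bitsOf_val (z : List Bool) : bitsOf z.length (val z) = z := by
  induction z with
  | nil => simp [bitsOf]
  | cons b z ih =>
    rw [List.length_cons, bitsOf_succ, val_cons]
    have h1 : (2 * val z + cond b 1 0) / 2 = val z := by
      cases b
      · simp
      · simp; omega
    have h2 : (2 * val z + cond b 1 0).testBit 0 = b := by
      rw [Nat.testBit_zero]; cases b <;> simp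
    rw [h1, h2, ih]

theorem bitsOf_mod (m v : ℕ) : bitsOf m (v % 2 ^ m) = bitsOf m v := by
  unfold bitsOf
  apply List.map_congr_left
  intro i hi
  rw [List.mem_range] at hi
  simp [Nat.testBit_mod_two_pow, hi]

theorem primrec_bitsOf : Primrec₂ bitsOf := by
  have h : Primrec₂ (fun (p : ℕ × ℕ) (i : ℕ) => p.2.testBit i) := by
    have h1 : Primrec₂ (fun (p : ℕ × ℕ) (i : ℕ) => decide (p.2 / 2 ^ i % 2 = 1)) := by
      have hA : Primrec (fun x : (ℕ × ℕ) × ℕ => x.1.2 / 2 ^ x.2 % 2) :=
        Primrec.nat_mod.comp (Primrec.nat_div.comp (Primrec.snd.comp Primrec.fst)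
          (primrec₂_pow.comp (Primrec.const 2) Primrec.snd)) (Primrec.const 2)
      have this : Primrec (fun x : (ℕ × ℕ) × ℕ => decide (x.1.2 / 2 ^ x.2 % 2 = 1)) :=
        Primrec₂.comp (Primrec.eq (α := ℕ)).decide hA (Primrec.const 1)
      exact this
    exact h1.of_eq (fun p i => (Nat.testBit_eq_decide_div_mod_eq).symm)
  exact Primrec.list_map (Primrec.list_range.comp Primrec.fst) h

theorem comp_bitsOf {α : Type*} [Primcodable α] {f g : α → ℕ} (hf : Computable f)
    (hg : Computable g) : Computable fun a => bitsOf (f a) (g a) :=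
  primrec_bitsOf.to_comp.comp hf hg

theorem primrec_val : Primrec val := by
  have h : Primrec₂ (fun (_ : List Bool) (p : Bool × ℕ) => 2 * p.2 + cond p.1 1 0) := by
    apply Primrec.nat_add.comp
    · exact Primrec.nat_mul.comp (Primrec.const 2) (Primrec.snd.comp Primrec.snd)
    · exact Primrec.cond (Primrec.fst.comp Primrec.snd) (Primrec.const 1) (Primrec.const 0)
  exact Primrec.list_foldr (Primrec.id) (Primrec.const 0) h

end Pool.Agent.Lib.MP_eed1a0_lc
end
end

section

/-! The counting argument showing that fooling encodings defeat the algorithm. -/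

namespace Pool.Agent.Lib.MP_eed1a0_lc

open Finset

/-- the argument for a single label -/
theorem core_single (B W : ℕ) (Y : ℕ → ℕ → ℕ → ℕ) (P : ℕ → Prop) [DecidablePred P]
    (E1 E2 : ℕ → Finset ℕ) (η μ : ℝ) (hη : 0 < η) (hμ : 0 < μ) (hB : 0 < B) :
    (∑ b ∈ range B, ∑ c ∈ range B, ∑ w ∈ range W,
      if Y b c w ∈ E1 b ∧ Y b c w ∈ E2 c ∧ ¬ P (Y b c w) then (1 : ℝ) else 0) ≤
    W * (η * B) * (∑ c ∈ range B, ((E2 c).card : ℝ)) +
    μ * (∑ b ∈ range B, ∑ c ∈ range B, ∑ w ∈ range W, if P (Y b c w) then (0 : ℝ) else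
      ((∑ b' ∈ range B, ∑ c' ∈ range B, ∑ w' ∈ range W,
        if Y b' c' w' = Y b c w then 1 else 0 : ℕ) : ℝ)) +
    (∑ b ∈ range B, ((E1 b).card : ℝ)) / (4 * μ * (η * B)) := by
  classical
  set σ : ℕ → ℕ := fun y => ∑ b ∈ range B, if y ∈ E1 b then 1 else 0 with hσ
  set T : Finset (ℕ × ℕ × ℕ) := range B ×ˢ range B ×ˢ range W with hT
  set Z : ℕ × ℕ × ℕ → ℕ := fun τ => Y τ.1 τ.2.1 τ.2.2 with hZ
  have hηB : 0 < η * B := by positivity
  -- split
  have hsplit : (∑ b ∈ range B, ∑ c ∈ range B, ∑ w ∈ range W,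
      if Y b c w ∈ E1 b ∧ Y b c w ∈ E2 c ∧ ¬ P (Y b c w) then (1 : ℝ) else 0) ≤
      (∑ b ∈ range B, ∑ c ∈ range B, ∑ w ∈ range W,
      if Y b c w ∈ E1 b ∧ Y b c w ∈ E2 c ∧ (σ (Y b c w) : ℝ) < η * B then (1 : ℝ) else 0) +
      ∑ τ ∈ T, (if ¬ P (Z τ) ∧ η * B ≤ (σ (Z τ) : ℝ) then (1 : ℝ) else 0) := by
    rw [hT, sum_product]
    simp only [sum_product]
    simp only [← sum_add_distrib]
    refine sum_le_sum fun b _ => sum_le_sum fun c _ => sum_le_sum fun w _ => ?_
    simp only [hZ]
    by_cases h1 : (σ (Y b c w) : ℝ) < η * B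
    · by_cases h2 : Y b c w ∈ E1 b <;> by_cases h3 : Y b c w ∈ E2 c <;>
        by_cases h4 : P (Y b c w) <;> simp [h1, h2, h3, h4, not_le.2 h1]
    · by_cases h2 : Y b c w ∈ E1 b <;> by_cases h3 : Y b c w ∈ E2 c <;>
        by_cases h4 : P (Y b c w) <;> simp [h1, h2, h3, h4, not_lt.1 h1]
  -- part I
  have hI : (∑ b ∈ range B, ∑ c ∈ range B, ∑ w ∈ range W,
      if Y b c w ∈ E1 b ∧ Y b c w ∈ E2 c ∧ (σ (Y b c w) : ℝ) < η * B then (1 : ℝ) else 0) ≤
      W * (η * B) * (∑ c ∈ range B, ((E2 c).card : ℝ)) := by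
    rw [sum_comm, mul_sum]
    refine sum_le_sum fun c _ => ?_
    rw [sum_comm]
    have h1 : ∀ w ∈ range W, (∑ b ∈ range B,
        if Y b c w ∈ E1 b ∧ Y b c w ∈ E2 c ∧ (σ (Y b c w) : ℝ) < η * B then (1 : ℝ) else 0) ≤
        (η * B) * ((E2 c).card : ℝ) := by
      intro w _
      calc _ ≤ ∑ b ∈ range B, ∑ y ∈ E2 c, (if y ∈ E1 b ∧ (σ y : ℝ) < η * B then (1 : ℝ) else 0) := by
            refine sum_le_sum fun b _ => ?_
            split_ifs with h
            · have := single_le_sum (f := fun y => if y ∈ E1 b ∧ (σ y : ℝ) < η * B then (1 : ℝ) else 0)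
                (fun y _ => by split_ifs <;> norm_num) h.2.1
              simpa [h.1, h.2.2] using this
            · exact sum_nonneg fun y _ => by split_ifs <;> norm_num
        _ = ∑ y ∈ E2 c, ∑ b ∈ range B, (if y ∈ E1 b ∧ (σ y : ℝ) < η * B then (1 : ℝ) else 0) :=
            sum_comm
        _ ≤ ∑ y ∈ E2 c, η * B := by
            refine sum_le_sum fun y _ => ?_
            by_cases h : (σ y : ℝ) < η * B
            · have h2 : (σ y : ℝ) = ∑ b ∈ range B, if y ∈ E1 b then (1 : ℝ) else 0 := by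
                simp [hσ]
              simp only [h, and_true]
              rw [← h2]
              exact h.le
            · simp only [h, and_false, if_false, sum_const_zero]
              exact hηB.le
        _ = _ := by rw [sum_const, nsmul_eq_mul]; ring
    calc _ ≤ ∑ w ∈ range W, (η * B) * ((E2 c).card : ℝ) := sum_le_sum h1
      _ = _ := by rw [sum_const, card_range, nsmul_eq_mul]; ring
  -- part II
  have hII : ∑ τ ∈ T, (if ¬ P (Z τ) ∧ η * B ≤ (σ (Z τ) : ℝ) then (1 : ℝ) else 0) ≤
    μ * (∑ b ∈ range B, ∑ c ∈ range B, ∑ w ∈ range W, if P (Y b c w) then (0 : ℝ) else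
      ((∑ b' ∈ range B, ∑ c' ∈ range B, ∑ w' ∈ range W,
        if Y b' c' w' = Y b c w then 1 else 0 : ℕ) : ℝ)) +
    (∑ b ∈ range B, ((E1 b).card : ℝ)) / (4 * μ * (η * B)) := by
    set cov : ℕ → ℕ := fun y => #{τ ∈ T | Z τ = y} with hcov
    have hcov' : ∀ y, (∑ b' ∈ range B, ∑ c' ∈ range B, ∑ w' ∈ range W,
        if Y b' c' w' = y then 1 else 0 : ℕ) = cov y := by
      intro y
      rw [hcov]
      simp only [card_filter, hT, sum_product, hZ]
    have e1 : (∑ b ∈ range B, ∑ c ∈ range B, ∑ w ∈ range W, if P (Y b c w) then (0 : ℝ) else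
      ((∑ b' ∈ range B, ∑ c' ∈ range B, ∑ w' ∈ range W,
        if Y b' c' w' = Y b c w then 1 else 0 : ℕ) : ℝ)) =
        ∑ τ ∈ T, (fun y => if P y then (0 : ℝ) else (cov y : ℝ)) (Z τ) := by
      simp only [hcov', hT, sum_product, hZ]
    rw [e1, sum_comp (fun y => if P y then (0 : ℝ) else (cov y : ℝ)) Z,
      sum_comp (fun y => if ¬ P y ∧ η * B ≤ (σ y : ℝ) then (1 : ℝ) else 0) Z]
    have h3 : ∀ y ∈ T.image Z, #{τ ∈ T | Z τ = y} • (if ¬ P y ∧ η * B ≤ (σ y : ℝ) then (1 : ℝ) else 0)
        ≤ μ * (#{τ ∈ T | Z τ = y} • (if P y then (0 : ℝ) else (cov y : ℝ))) +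
          (if η * B ≤ (σ y : ℝ) then 1 / (4 * μ) else 0) := by
      intro y _
      rw [nsmul_eq_mul, nsmul_eq_mul]
      change (cov y : ℝ) * _ ≤ μ * ((cov y : ℝ) * _) + _
      by_cases h1 : P y
      · simp only [h1, not_true_eq_false, false_and, if_false, if_true, mul_zero, zero_add]
        split_ifs <;> positivity
      · by_cases h2 : η * B ≤ (σ y : ℝ)
        · simp only [h1, h2, not_false_eq_true, and_self, if_true, if_false, mul_one]
          have : 0 ≤ μ * ((cov y : ℝ) - 1 / (2 * μ)) ^ 2 := by positivity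
          have h4 : μ * ((cov y : ℝ) - 1 / (2 * μ)) ^ 2 =
              μ * (cov y * cov y) + 1 / (4 * μ) - cov y := by
            field_simp
            ring
          linarith
        · simp only [h2, and_false, if_false, mul_zero, add_zero]
          split_ifs
          all_goals positivity
    refine (sum_le_sum h3).trans ?_
    rw [sum_add_distrib, ← mul_sum]
    gcongr
    -- count of frequent values
    have h4 : ∑ y ∈ T.image Z, (if η * B ≤ (σ y : ℝ) then 1 / (4 * μ) else 0) ≤
        ∑ y ∈ T.image Z, (σ y : ℝ) / (4 * μ * (η * B)) := by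
      refine sum_le_sum fun y _ => ?_
      split_ifs with h
      · rw [div_le_div_iff₀ (by positivity) (by positivity)]
        nlinarith
      · positivity
    refine h4.trans ?_
    rw [← sum_div]
    gcongr
    have h5 : ∀ y ∈ T.image Z, (σ y : ℝ) = ∑ b ∈ range B, if y ∈ E1 b then (1 : ℝ) else 0 := by
      intro y _; simp [hσ]
    rw [sum_congr rfl h5, sum_comm]
    refine sum_le_sum fun b _ => ?_
    rw [← sum_filter, sum_const, nsmul_eq_mul, mul_one]
    have h6 : (T.image Z).filter (fun y => y ∈ E1 b) ⊆ E1 b := by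
      intro y hy; exact (mem_filter.1 hy).2
    exact_mod_cast card_le_card h6
  linarith

theorem core_bound (q A B W : ℕ) (s t : ℕ → ℕ) (G : ℕ → ℕ → ℕ → ℕ)
    (hA : 0 < A) (hB : 0 < B) (hW : 0 < W) (E1 E2 : ℕ → Finset ℕ) (M1 : ℕ) (hM : 0 < M1)
    (h1 : ∑ a ∈ range A, ∑ b ∈ range B, (E1 (a * B + b)).card ≤ M1)
    (h2 : ∑ a ∈ range A, ∑ b ∈ range B, (E2 (a * B + b)).card ≤ M1)
    (hfool : foolSum q A B W s t G ≤ 16 * A * B ^ 3 * W ^ 2)
    (Gd : Finset ℕ) (hGd : Gd ⊆ range A) (hcard : A ≤ 2 * Gd.card)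
    (δ : ℝ) (hδ : 0 < δ)
    (hsucc : ∀ a ∈ Gd, ∀ b < B, ∀ c < B, δ * W ≤
      (((range W).filter (fun w => G (s (a * B + b)) (t (a * B + c)) w ∈ E1 (a * B + b) ∧
        G (s (a * B + b)) (t (a * B + c)) w ∈ E2 (a * B + c) ∧
        ¬ Pop q B W G (G (s (a * B + b)) (t (a * B + c)) w))).card : ℝ)) :
    (A : ℝ) ^ 2 * B ^ 3 * δ ^ 3 ≤ 1024 * M1 ^ 2 := by
  have hA' : (0 : ℝ) < A := by exact_mod_cast hA
  have hB' : (0 : ℝ) < B := by exact_mod_cast hB
  have hW' : (0 : ℝ) < W := by exact_mod_cast hW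
  have hM' : (0 : ℝ) < M1 := by exact_mod_cast hM
  set η : ℝ := δ * (A * B) / (8 * M1) with hη
  set μ : ℝ := δ / (128 * (B * W)) with hμ
  have hη0 : 0 < η := by positivity
  have hμ0 : 0 < μ := by positivity
  -- lower bound for the total
  set N : ℕ → ℝ := fun a => ∑ b ∈ range B, ∑ c ∈ range B, ∑ w ∈ range W,
      if G (s (a * B + b)) (t (a * B + c)) w ∈ E1 (a * B + b) ∧
        G (s (a * B + b)) (t (a * B + c)) w ∈ E2 (a * B + c) ∧
        ¬ Pop q B W G (G (s (a * B + b)) (t (a * B + c)) w) then (1 : ℝ) else 0 with hN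
  have hlow : ∀ a ∈ Gd, (B : ℝ) ^ 2 * (δ * W) ≤ N a := by
    intro a ha
    have : ∀ b ∈ range B, ∀ c ∈ range B, δ * W ≤ ∑ w ∈ range W,
      if G (s (a * B + b)) (t (a * B + c)) w ∈ E1 (a * B + b) ∧
        G (s (a * B + b)) (t (a * B + c)) w ∈ E2 (a * B + c) ∧
        ¬ Pop q B W G (G (s (a * B + b)) (t (a * B + c)) w) then (1 : ℝ) else 0 := by
      intro b hb c hc
      have := hsucc a ha b (mem_range.1 hb) c (mem_range.1 hc)
      rw [card_filter] at this
      push_cast at this
      exact this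
    calc (B : ℝ) ^ 2 * (δ * W) = ∑ b ∈ range B, ∑ c ∈ range B, δ * W := by
          simp only [sum_const, card_range, nsmul_eq_mul]; ring
      _ ≤ N a := sum_le_sum fun b hb => sum_le_sum fun c hc => this b hb c hc
  have hlow2 : (A : ℝ) / 2 * (B ^ 2 * (δ * W)) ≤ ∑ a ∈ Gd, N a := by
    calc (A : ℝ) / 2 * (B ^ 2 * (δ * W)) ≤ (Gd.card : ℝ) * (B ^ 2 * (δ * W)) := by
          have : (A : ℝ) ≤ 2 * Gd.card := by exact_mod_cast hcard
          gcongr
          linarith
      _ = ∑ a ∈ Gd, (B : ℝ) ^ 2 * (δ * W) := by rw [sum_const, nsmul_eq_mul]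
      _ ≤ _ := sum_le_sum hlow
  have hNnn : ∀ a, 0 ≤ N a := by
    intro a
    refine sum_nonneg fun b _ => sum_nonneg fun c _ => sum_nonneg fun w _ => ?_
    split_ifs <;> norm_num
  have hup : ∑ a ∈ Gd, N a ≤ W * (η * B) * M1 + μ * (16 * A * B ^ 3 * W ^ 2) +
      M1 / (4 * μ * (η * B)) := by
    calc ∑ a ∈ Gd, N a ≤ ∑ a ∈ range A, N a :=
          sum_le_sum_of_subset_of_nonneg hGd fun a _ _ => hNnn a
      _ ≤ ∑ a ∈ range A, (W * (η * B) * (∑ c ∈ range B, ((E2 (a * B + c)).card : ℝ)) +
          μ * (∑ b ∈ range B, ∑ c ∈ range B, ∑ w ∈ range W,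
            if Pop q B W G (G (s (a * B + b)) (t (a * B + c)) w) then (0 : ℝ) else
            ((∑ b' ∈ range B, ∑ c' ∈ range B, ∑ w' ∈ range W,
              if G (s (a * B + b')) (t (a * B + c')) w' =
                G (s (a * B + b)) (t (a * B + c)) w then 1 else 0 : ℕ) : ℝ)) +
          (∑ b ∈ range B, ((E1 (a * B + b)).card : ℝ)) / (4 * μ * (η * B))) := by
          refine sum_le_sum fun a _ => ?_
          exact core_single B W (fun b c w => G (s (a * B + b)) (t (a * B + c)) w)
            (Pop q B W G) (fun b => E1 (a * B + b)) (fun c => E2 (a * B + c)) η μ hη0 hμ0 hB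
      _ ≤ _ := by
          rw [sum_add_distrib, sum_add_distrib, ← mul_sum, ← mul_sum, ← sum_div]
          have g1 : (∑ a ∈ range A, ∑ c ∈ range B, ((E2 (a * B + c)).card : ℝ)) ≤ M1 := by
            exact_mod_cast h2
          have g2 : (∑ a ∈ range A, ∑ c ∈ range B, ((E1 (a * B + c)).card : ℝ)) ≤ M1 := by
            exact_mod_cast h1
          have g3 : (∑ a ∈ range A, ∑ b ∈ range B, ∑ c ∈ range B, ∑ w ∈ range W,
            if Pop q B W G (G (s (a * B + b)) (t (a * B + c)) w) then (0 : ℝ) else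
            ((∑ b' ∈ range B, ∑ c' ∈ range B, ∑ w' ∈ range W,
              if G (s (a * B + b')) (t (a * B + c')) w' =
                G (s (a * B + b)) (t (a * B + c)) w then 1 else 0 : ℕ) : ℝ)) ≤
              16 * A * B ^ 3 * W ^ 2 := by
            have : ((foolSum q A B W s t G : ℕ) : ℝ) ≤ ((16 * A * B ^ 3 * W ^ 2 : ℕ) : ℝ) := by
              exact_mod_cast hfool
            push_cast at this
            refine le_trans (le_of_eq ?_) this
            unfold foolSum cnt
            push_cast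
            rfl
          gcongr
  have hfin := hlow2.trans hup
  have e1 : (W : ℝ) * (η * B) * M1 = A * B ^ 2 * δ * W / 8 := by
    rw [hη]; field_simp
  have e2 : μ * (16 * A * B ^ 3 * W ^ 2) = A * B ^ 2 * δ * W / 8 := by
    rw [hμ]; field_simp; norm_num
  have e3 : (M1 : ℝ) / (4 * μ * (η * B)) = 256 * M1 ^ 2 * W / (δ ^ 2 * (A * B)) := by
    rw [hμ, hη]; field_simp; norm_num
  rw [e1, e2, e3] at hfin
  have h5 : (A : ℝ) * B ^ 2 * δ * W / 4 ≤ 256 * M1 ^ 2 * W / (δ ^ 2 * (A * B)) := by
    linarith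
  rw [div_le_div_iff₀ (by norm_num) (by positivity)] at h5
  have h6 : ((A : ℝ) ^ 2 * B ^ 3 * δ ^ 3) * W ≤ (1024 * M1 ^ 2) * W := by
    nlinarith
  exact le_of_mul_le_mul_right h6 hW'

end Pool.Agent.Lib.MP_eed1a0_lc
end

section

section

/-! Basic facts on plain Kolmogorov complexity. -/

namespace Pool.Agent.Lib.MP_eed1a0_lc

open Encodable

variable {U : List Bool →. List Bool}

theorem KC_le {z p : List Bool} (h : z ∈ U p) : KC U z ≤ p.length :=
  Nat.sInf_le ⟨p, h, rfl⟩

theorem exists_program (hU : IsOptimal U) (z : List Bool) :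
    ∃ p, z ∈ U p ∧ p.length = KC U z := by
  obtain ⟨d, hd⟩ := hU.2 (fun p => Part.some p) Partrec.some
  obtain ⟨p', hp', -⟩ := hd z z (Part.mem_some z)
  exact Nat.sInf_mem (s := {n | ∃ p : List Bool, z ∈ U p ∧ p.length = n}) ⟨_, p', hp', rfl⟩

/-- An injective numbering of strings, with `num z < 2 ^ (z.length + 1)`. -/
def num (z : List Bool) : ℕ := 2 ^ z.length + val z

theorem num_injective : Function.Injective num := by
  intro z w h
  have hz := val_lt z
  have hw := val_lt w
  unfold num at h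
  have hlen : z.length = w.length := by
    rcases lt_trichotomy z.length w.length with hl | hl | hl
    · exfalso
      have : 2 ^ (z.length + 1) ≤ 2 ^ w.length := Nat.pow_le_pow_right (by norm_num) hl
      rw [pow_succ] at this
      omega
    · exact hl
    · exfalso
      have : 2 ^ (w.length + 1) ≤ 2 ^ z.length := Nat.pow_le_pow_right (by norm_num) hl
      rw [pow_succ] at this
      omega
  have hv : val z = val w := by rw [hlen] at h; omega
  rw [← bitsOf_val z, ← bitsOf_val w, hlen, hv]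

theorem num_lt {z : List Bool} {m : ℕ} (h : z.length ≤ m) : num z < 2 ^ (m + 1) := by
  have h1 := val_lt z
  have h2 : 2 ^ (z.length + 1) ≤ 2 ^ (m + 1) := Nat.pow_le_pow_right (by norm_num) (by omega)
  rw [pow_succ] at h2
  unfold num
  omega

/-- Fewer than `2 ^ (m+1)` strings have complexity at most `m`. -/
theorem card_le_of_KC_le (hU : IsOptimal U) {ι : Type*} (S : Finset ι) (f : ι → List Bool)
    (hf : Set.InjOn f S) (m : ℕ) (hS : ∀ i ∈ S, KC U (f i) ≤ m) : S.card ≤ 2 ^ (m + 1) := by
  choose p hp hlen using exists_program hU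
  have := Finset.card_le_card_of_injOn (s := S) (t := Finset.range (2 ^ (m + 1)))
    (fun i => num (p (f i))) ?_ ?_
  · simpa using this
  · intro i hi
    have : num (p (f i)) < 2 ^ (m + 1) := num_lt (by rw [hlen]; exact hS i hi)
    simpa using this
  · intro i hi j hj hij
    have h1 : p (f i) = p (f j) := num_injective hij
    apply hf hi hj
    have h2 := hp (f i)
    rw [h1] at h2
    exact Part.mem_unique h2 (hp (f j))

/-- Complexity bound for a partial computable function of a scale parameter and an index. -/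
theorem exists_KC_bound (hU : IsOptimal U) {g : ℕ × ℕ →. List Bool} (hg : Partrec g) {e : ℕ}
    (he : 0 < e) : ∃ d : ℕ, ∀ l i : ℕ, i < 2 ^ (e * l) → ∀ z ∈ g (l, i), KC U z ≤ e * l + d := by
  have hV : Partrec (fun p : List Bool => g (p.length / e, val p)) := by
    apply hg.comp
    exact Computable.pair (comp_div Computable.list_length (Computable.const e))
      primrec_val.to_comp
  obtain ⟨d, hd⟩ := hU.2 _ hV
  refine ⟨d, fun l i hi z hz => ?_⟩
  obtain ⟨p', hp', hlen⟩ := hd (bitsOf (e * l) i) z (by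
    rw [length_bitsOf, val_bitsOf, Nat.mod_eq_of_lt hi, Nat.mul_div_cancel_left l he]
    exact hz)
  rw [length_bitsOf] at hlen
  exact (KC_le hp').trans hlen

end Pool.Agent.Lib.MP_eed1a0_lc
end

section

/-! Computability of the counting functions. -/

namespace Pool.Agent.Lib.MP_eed1a0_lc

open Finset Encodable

section general

variable {α : Type*} [Primcodable α]

theorem comp_four {β : Type*} [Primcodable β] {G : α → ℕ → ℕ → ℕ → ℕ} {f : β → α} {g h k : β → ℕ}
    (hG : Computable fun p : α × ℕ × ℕ × ℕ => G p.1 p.2.1 p.2.2.1 p.2.2.2)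
    (hf : Computable f) (hg : Computable g) (hh : Computable h) (hk : Computable k) :
    Computable (fun p : β => G (f p) (g p) (h p) (k p)) := by
  have : Computable (fun p : β => (f p, g p, h p, k p)) := hf.pair (hg.pair (hh.pair hk))
  exact hG.comp this

theorem comp_cnt {n W y : α → ℕ} {s t : α → ℕ → ℕ} {G : α → ℕ → ℕ → ℕ → ℕ}
    (hn : Computable n) (hW : Computable W) (hy : Computable y)
    (hs : Computable₂ s) (ht : Computable₂ t)
    (hG : Computable fun p : α × ℕ × ℕ × ℕ => G p.1 p.2.1 p.2.2.1 p.2.2.2) :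
    Computable fun a => cnt (n a) (W a) (s a) (t a) (G a) (y a) := by
  unfold cnt
  have f1 : Computable (fun p : ((α × ℕ) × ℕ) × ℕ => p.1.1.1) :=
    Computable.fst.comp (Computable.fst.comp Computable.fst)
  have f2 : Computable (fun p : ((α × ℕ) × ℕ) × ℕ => p.1.1.2) :=
    Computable.snd.comp (Computable.fst.comp Computable.fst)
  have f3 : Computable (fun p : ((α × ℕ) × ℕ) × ℕ => p.1.2) :=
    Computable.snd.comp Computable.fst
  have f4 : Computable (fun p : ((α × ℕ) × ℕ) × ℕ => p.2) := Computable.snd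
  have h4 : Computable (fun p : ((α × ℕ) × ℕ) × ℕ =>
      G p.1.1.1 (s p.1.1.1 p.1.1.2) (t p.1.1.1 p.1.2) p.2) :=
    comp_four hG f1 (Computable₂.comp hs f1 f2) (Computable₂.comp ht f1 f3) f4
  have h3 : Computable (fun p : ((α × ℕ) × ℕ) × ℕ =>
      if G p.1.1.1 (s p.1.1.1 p.1.1.2) (t p.1.1.1 p.1.2) p.2 = y p.1.1.1 then 1 else 0) :=
    comp_ite (cpred_eq h4 (hy.comp f1)) (Computable.const 1) (Computable.const 0)
  have h2 : Computable (fun p : (α × ℕ) × ℕ => ∑ w ∈ range (W p.1.1),
      if G p.1.1 (s p.1.1 p.1.2) (t p.1.1 p.2) w = y p.1.1 then 1 else 0) :=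
    comp_sum_range h3 (hW.comp (Computable.fst.comp Computable.fst))
  have h1 : Computable (fun p : α × ℕ => ∑ c ∈ range (n p.1), ∑ w ∈ range (W p.1),
      if G p.1 (s p.1 p.2) (t p.1 c) w = y p.1 then 1 else 0) :=
    comp_sum_range h2 (hn.comp Computable.fst)
  exact comp_sum_range h1 hn

theorem cpred_Pop {q B W y : α → ℕ} {G : α → ℕ → ℕ → ℕ → ℕ}
    (hq : Computable q) (hB : Computable B) (hW : Computable W) (hy : Computable y)
    (hG : Computable fun p : α × ℕ × ℕ × ℕ => G p.1 p.2.1 p.2.2.1 p.2.2.2) :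
    ComputablePred fun a => Pop (q a) (B a) (W a) (G a) (y a) := by
  unfold Pop
  have h0 : Computable₂ (fun (_ : α) (x : ℕ) => x) := Computable.snd
  refine cpred_le ?_ ?_
  · exact comp_mul (comp_mul (Computable.const 2) (comp_pow hq (Computable.const 2))) hW
  · exact comp_mul hB (comp_cnt hq hW hy h0 h0 hG)

theorem comp_foolSum {q A B W : α → ℕ} {s t : α → ℕ → ℕ} {G : α → ℕ → ℕ → ℕ → ℕ}
    (hq : Computable q) (hA : Computable A) (hB : Computable B) (hW : Computable W)
    (hs : Computable₂ s) (ht : Computable₂ t)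
    (hG : Computable fun p : α × ℕ × ℕ × ℕ => G p.1 p.2.1 p.2.2.1 p.2.2.2) :
    Computable fun a => foolSum (q a) (A a) (B a) (W a) (s a) (t a) (G a) := by
  unfold foolSum
  -- the five coordinates
  have f0 : Computable (fun p : (((α × ℕ) × ℕ) × ℕ) × ℕ => p.1.1.1.1) :=
    Computable.fst.comp (Computable.fst.comp (Computable.fst.comp Computable.fst))
  have f1 : Computable (fun p : (((α × ℕ) × ℕ) × ℕ) × ℕ => p.1.1.1.2) :=
    Computable.snd.comp (Computable.fst.comp (Computable.fst.comp Computable.fst))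
  have f2 : Computable (fun p : (((α × ℕ) × ℕ) × ℕ) × ℕ => p.1.1.2) :=
    Computable.snd.comp (Computable.fst.comp Computable.fst)
  have f3 : Computable (fun p : (((α × ℕ) × ℕ) × ℕ) × ℕ => p.1.2) :=
    Computable.snd.comp Computable.fst
  have f4 : Computable (fun p : (((α × ℕ) × ℕ) × ℕ) × ℕ => p.2) := Computable.snd
  have hB0 := hB.comp f0
  have hW0 := hW.comp f0
  have hq0 := hq.comp f0
  have i1 : Computable (fun p : (((α × ℕ) × ℕ) × ℕ) × ℕ => p.1.1.1.2 * B p.1.1.1.1 + p.1.1.2) :=
    comp_add (comp_mul f1 hB0) f2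
  have i2 : Computable (fun p : (((α × ℕ) × ℕ) × ℕ) × ℕ => p.1.1.1.2 * B p.1.1.1.1 + p.1.2) :=
    comp_add (comp_mul f1 hB0) f3
  have gs : Computable (fun p : (((α × ℕ) × ℕ) × ℕ) × ℕ =>
      s p.1.1.1.1 (p.1.1.1.2 * B p.1.1.1.1 + p.1.1.2)) := Computable₂.comp hs f0 i1
  have gt : Computable (fun p : (((α × ℕ) × ℕ) × ℕ) × ℕ =>
      t p.1.1.1.1 (p.1.1.1.2 * B p.1.1.1.1 + p.1.2)) := Computable₂.comp ht f0 i2
  have gG : Computable (fun p : (((α × ℕ) × ℕ) × ℕ) × ℕ => G p.1.1.1.1
      (s p.1.1.1.1 (p.1.1.1.2 * B p.1.1.1.1 + p.1.1.2))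
        (t p.1.1.1.1 (p.1.1.1.2 * B p.1.1.1.1 + p.1.2)) p.2) := comp_four hG f0 gs gt f4
  have hG' : Computable fun r : ((((α × ℕ) × ℕ) × ℕ) × ℕ) × ℕ × ℕ × ℕ =>
      G r.1.1.1.1.1 r.2.1 r.2.2.1 r.2.2.2 :=
    comp_four hG (f0.comp Computable.fst) (Computable.fst.comp Computable.snd)
      (Computable.fst.comp (Computable.snd.comp Computable.snd))
      (Computable.snd.comp (Computable.snd.comp Computable.snd))
  have j0 : Computable (fun r : ((((α × ℕ) × ℕ) × ℕ) × ℕ) × ℕ => r.1.1.1.1.1) :=
    f0.comp Computable.fst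
  have j1 : Computable (fun r : ((((α × ℕ) × ℕ) × ℕ) × ℕ) × ℕ =>
      r.1.1.1.1.2 * B r.1.1.1.1.1 + r.2) :=
    comp_add (comp_mul (f1.comp Computable.fst) (hB.comp j0)) Computable.snd
  have gs' : Computable₂ (fun (p : (((α × ℕ) × ℕ) × ℕ) × ℕ) (b : ℕ) =>
      s p.1.1.1.1 (p.1.1.1.2 * B p.1.1.1.1 + b)) := Computable₂.comp hs j0 j1
  have gt' : Computable₂ (fun (p : (((α × ℕ) × ℕ) × ℕ) × ℕ) (b : ℕ) =>
      t p.1.1.1.1 (p.1.1.1.2 * B p.1.1.1.1 + b)) := Computable₂.comp ht j0 j1
  have hcnt : Computable (fun p : (((α × ℕ) × ℕ) × ℕ) × ℕ =>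
      cnt (B p.1.1.1.1) (W p.1.1.1.1) (fun b => s p.1.1.1.1 (p.1.1.1.2 * B p.1.1.1.1 + b))
      (fun c => t p.1.1.1.1 (p.1.1.1.2 * B p.1.1.1.1 + c)) (G p.1.1.1.1)
      (G p.1.1.1.1 (s p.1.1.1.1 (p.1.1.1.2 * B p.1.1.1.1 + p.1.1.2))
        (t p.1.1.1.1 (p.1.1.1.2 * B p.1.1.1.1 + p.1.2)) p.2)) :=
    comp_cnt hB0 hW0 gG gs' gt' hG'
  have hpop : ComputablePred (fun p : (((α × ℕ) × ℕ) × ℕ) × ℕ =>
      Pop (q p.1.1.1.1) (B p.1.1.1.1) (W p.1.1.1.1) (G p.1.1.1.1)
      (G p.1.1.1.1 (s p.1.1.1.1 (p.1.1.1.2 * B p.1.1.1.1 + p.1.1.2))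
        (t p.1.1.1.1 (p.1.1.1.2 * B p.1.1.1.1 + p.1.2)) p.2)) :=
    cpred_Pop hq0 hB0 hW0 gG hG'
  have h5 : Computable (fun p : (((α × ℕ) × ℕ) × ℕ) × ℕ =>
      if Pop (q p.1.1.1.1) (B p.1.1.1.1) (W p.1.1.1.1) (G p.1.1.1.1)
      (G p.1.1.1.1 (s p.1.1.1.1 (p.1.1.1.2 * B p.1.1.1.1 + p.1.1.2))
        (t p.1.1.1.1 (p.1.1.1.2 * B p.1.1.1.1 + p.1.2)) p.2) then 0 else
      cnt (B p.1.1.1.1) (W p.1.1.1.1) (fun b => s p.1.1.1.1 (p.1.1.1.2 * B p.1.1.1.1 + b))
      (fun c => t p.1.1.1.1 (p.1.1.1.2 * B p.1.1.1.1 + c)) (G p.1.1.1.1)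
      (G p.1.1.1.1 (s p.1.1.1.1 (p.1.1.1.2 * B p.1.1.1.1 + p.1.1.2))
        (t p.1.1.1.1 (p.1.1.1.2 * B p.1.1.1.1 + p.1.2)) p.2)) :=
    comp_ite hpop (Computable.const 0) hcnt
  have h4 : Computable (fun p : ((α × ℕ) × ℕ) × ℕ => ∑ w ∈ range (W p.1.1.1),
      if Pop (q p.1.1.1) (B p.1.1.1) (W p.1.1.1) (G p.1.1.1)
      (G p.1.1.1 (s p.1.1.1 (p.1.1.2 * B p.1.1.1 + p.1.2))
        (t p.1.1.1 (p.1.1.2 * B p.1.1.1 + p.2)) w) then 0 else
      cnt (B p.1.1.1) (W p.1.1.1) (fun b => s p.1.1.1 (p.1.1.2 * B p.1.1.1 + b))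
      (fun c => t p.1.1.1 (p.1.1.2 * B p.1.1.1 + c)) (G p.1.1.1)
      (G p.1.1.1 (s p.1.1.1 (p.1.1.2 * B p.1.1.1 + p.1.2))
        (t p.1.1.1 (p.1.1.2 * B p.1.1.1 + p.2)) w)) :=
    comp_sum_range h5 (hW.comp (Computable.fst.comp (Computable.fst.comp Computable.fst)))
  have h3 : Computable (fun p : (α × ℕ) × ℕ => ∑ c ∈ range (B p.1.1), ∑ w ∈ range (W p.1.1),
      if Pop (q p.1.1) (B p.1.1) (W p.1.1) (G p.1.1)
      (G p.1.1 (s p.1.1 (p.1.2 * B p.1.1 + p.2))
        (t p.1.1 (p.1.2 * B p.1.1 + c)) w) then 0 else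
      cnt (B p.1.1) (W p.1.1) (fun b => s p.1.1 (p.1.2 * B p.1.1 + b))
      (fun c => t p.1.1 (p.1.2 * B p.1.1 + c)) (G p.1.1)
      (G p.1.1 (s p.1.1 (p.1.2 * B p.1.1 + p.2))
        (t p.1.1 (p.1.2 * B p.1.1 + c)) w)) :=
    comp_sum_range h4 (hB.comp (Computable.fst.comp Computable.fst))
  have h2 : Computable (fun p : α × ℕ => ∑ b ∈ range (B p.1), ∑ c ∈ range (B p.1),
      ∑ w ∈ range (W p.1),
      if Pop (q p.1) (B p.1) (W p.1) (G p.1)
      (G p.1 (s p.1 (p.2 * B p.1 + b))
        (t p.1 (p.2 * B p.1 + c)) w) then 0 else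
      cnt (B p.1) (W p.1) (fun b => s p.1 (p.2 * B p.1 + b))
      (fun c => t p.1 (p.2 * B p.1 + c)) (G p.1)
      (G p.1 (s p.1 (p.2 * B p.1 + b))
        (t p.1 (p.2 * B p.1 + c)) w)) :=
    comp_sum_range h3 (hB.comp Computable.fst)
  exact comp_sum_range h2 hA

end general

end Pool.Agent.Lib.MP_eed1a0_lc
end

section

/-! The encodings used against a given randomized algorithm, and their computability. -/

namespace Pool.Agent.Lib.MP_eed1a0_lc

open Finset Encodable

/-- the string representing the number `x` at scale `l` -/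
def xs (l x : ℕ) : List Bool := bitsOf (2 ^ l + 1) x

/-- the string representing the label `a` at scale `l` -/
def lab (C l a : ℕ) : List Bool := bitsOf (C * l) a

/-- the total length of the instances at scale `l` -/
def nTot (C l : ℕ) : ℕ := 2 * (2 ^ l + 1) + C * l

/-- the `v`-th candidate profile (with `p` entries) at scale `l` -/
def vlist (p l v : ℕ) : List ℕ := (List.range p).map (fun k => v / 2 ^ (l * k) % 2 ^ l)

/-- the tuple `x` of `k` strings built from two strings -/
def padX (k : ℕ) (a b : List Bool) : List (List Bool) := a :: b :: List.replicate (k - 2) []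

/-- the tuple `y` of `m` strings built from one string -/
def padY (m : ℕ) (a : List Bool) : List (List Bool) := a :: List.replicate (m - 1) []

/-- the input given to the algorithm -/
def inp (k p C l x x' v : ℕ) : Input := (padX k (xs l x) (xs l x'), vlist p l v, nTot C l)

/-- an upper bound for the number of coins at scale `l` -/
def Rb (M : RandAlg) (k p C l : ℕ) : ℕ :=
  ∑ x ∈ range (2 ^ (2 ^ l + 1)), ∑ x' ∈ range (2 ^ (2 ^ l + 1)), ∑ v ∈ range (2 ^ (p * l)),
    M.coins (inp k p C l x x' v)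

/-- the size of the sample space at scale `l` -/
def Wd (M : RandAlg) (k p C l : ℕ) : ℕ := 2 ^ (p * l) * 2 ^ Rb M k p C l

/-- the output of the algorithm, as a number -/
def Gf (M : RandAlg) (k p C l x x' w : ℕ) : ℕ :=
  encode ((M.run (inp k p C l x x' (w / 2 ^ Rb M k p C l),
    bitsOf (M.coins (inp k p C l x x' (w / 2 ^ Rb M k p C l))) (w % 2 ^ Rb M k p C l))).headI)

section computability

variable {β : Type*} [Primcodable β]

theorem comp_xs {f g : β → ℕ} (hf : Computable f) (hg : Computable g) :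
    Computable fun p => xs (f p) (g p) :=
  comp_bitsOf (comp_add (comp_pow (Computable.const 2) hf) (Computable.const 1)) hg

theorem comp_lab (C : ℕ) {f g : β → ℕ} (hf : Computable f) (hg : Computable g) :
    Computable fun p => lab C (f p) (g p) :=
  comp_bitsOf (comp_mul (Computable.const C) hf) hg

theorem comp_nTot (C : ℕ) {f : β → ℕ} (hf : Computable f) :
    Computable fun p => nTot C (f p) :=
  comp_add (comp_mul (Computable.const 2) (comp_add (comp_pow (Computable.const 2) hf)
    (Computable.const 1))) (comp_mul (Computable.const C) hf)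

theorem primrec_vlist (p : ℕ) : Primrec₂ (vlist p) := by
  have h : Primrec (fun p : (ℕ × ℕ) × ℕ => p.1.2 / 2 ^ (p.1.1 * p.2) % 2 ^ p.1.1) := by
    have h1 : Primrec (fun p : (ℕ × ℕ) × ℕ => p.1.1) := Primrec.fst.comp Primrec.fst
    have h2 : Primrec (fun p : (ℕ × ℕ) × ℕ => p.1.2) := Primrec.snd.comp Primrec.fst
    have h3 : Primrec (fun p : (ℕ × ℕ) × ℕ => p.2) := Primrec.snd
    have h4 : Primrec (fun p : (ℕ × ℕ) × ℕ => p.1.1 * p.2) := Primrec.nat_mul.comp h1 h3
    have h5 : Primrec (fun p : (ℕ × ℕ) × ℕ => 2 ^ (p.1.1 * p.2)) :=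
      primrec₂_pow.comp (Primrec.const 2) h4
    have h6 : Primrec (fun p : (ℕ × ℕ) × ℕ => 2 ^ p.1.1) :=
      primrec₂_pow.comp (Primrec.const 2) h1
    exact Primrec.nat_mod.comp (Primrec.nat_div.comp h2 h5) h6
  have h' : Primrec₂ (fun (p : ℕ × ℕ) (k : ℕ) => p.2 / 2 ^ (p.1 * k) % 2 ^ p.1) := h
  exact Primrec.list_map (Primrec.const (List.range p)) h'

theorem comp_vlist (p : ℕ) {f g : β → ℕ} (hf : Computable f) (hg : Computable g) :
    Computable fun z => vlist p (f z) (g z) := (primrec_vlist p).to_comp.comp hf hg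

theorem comp_inp (k p C : ℕ) {l x x' v : β → ℕ} (hl : Computable l) (hx : Computable x)
    (hx' : Computable x') (hv : Computable v) :
    Computable fun z => inp k p C (l z) (x z) (x' z) (v z) := by
  have h1 := comp_xs hl hx
  have h2 := comp_xs hl hx'
  have h3 : Computable fun z => padX k (xs (l z) (x z)) (xs (l z) (x' z)) :=
    Computable.list_cons.comp h1 (Computable.list_cons.comp h2 (Computable.const _))
  exact h3.pair ((comp_vlist p hl hv).pair (comp_nTot C hl))

theorem comp_Rb (M : RandAlg) (k p C : ℕ) : Computable (Rb M k p C) := by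
  have f0 : Computable (fun p : ((ℕ × ℕ) × ℕ) × ℕ => p.1.1.1) :=
    Computable.fst.comp (Computable.fst.comp Computable.fst)
  have f1 : Computable (fun p : ((ℕ × ℕ) × ℕ) × ℕ => p.1.1.2) :=
    Computable.snd.comp (Computable.fst.comp Computable.fst)
  have f2 : Computable (fun p : ((ℕ × ℕ) × ℕ) × ℕ => p.1.2) :=
    Computable.snd.comp Computable.fst
  have f3 : Computable (fun p : ((ℕ × ℕ) × ℕ) × ℕ => p.2) := Computable.snd
  have h4 : Computable (fun z : ((ℕ × ℕ) × ℕ) × ℕ =>
      M.coins (inp k p C z.1.1.1 z.1.1.2 z.1.2 z.2)) :=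
    M.coins_computable.comp (comp_inp k p C f0 f1 f2 f3)
  have b : Computable (fun l : ℕ => 2 ^ (2 ^ l + 1)) :=
    comp_pow (Computable.const 2) (comp_add (comp_pow (Computable.const 2) Computable.id)
      (Computable.const 1))
  have b' : Computable (fun l : ℕ => 2 ^ (p * l)) :=
    comp_pow (Computable.const 2) (comp_mul (Computable.const p) Computable.id)
  have h3 : Computable (fun z : (ℕ × ℕ) × ℕ => ∑ v ∈ range (2 ^ (p * z.1.1)),
      M.coins (inp k p C z.1.1 z.1.2 z.2 v)) :=
    comp_sum_range h4 (b'.comp (Computable.fst.comp Computable.fst))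
  have h2 : Computable (fun z : ℕ × ℕ => ∑ x' ∈ range (2 ^ (2 ^ z.1 + 1)),
      ∑ v ∈ range (2 ^ (p * z.1)), M.coins (inp k p C z.1 z.2 x' v)) :=
    comp_sum_range h3 (b.comp Computable.fst)
  exact comp_sum_range h2 b

theorem comp_Wd (M : RandAlg) (k p C : ℕ) : Computable (Wd M k p C) :=
  comp_mul (comp_pow (Computable.const 2) (comp_mul (Computable.const p) Computable.id))
    (comp_pow (Computable.const 2) (comp_Rb M k p C))

theorem comp_Gf (M : RandAlg) (k p C : ℕ) {l x x' w : β → ℕ} (hl : Computable l)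
    (hx : Computable x) (hx' : Computable x') (hw : Computable w) :
    Computable fun z => Gf M k p C (l z) (x z) (x' z) (w z) := by
  have hR : Computable (fun z => 2 ^ Rb M k p C (l z)) :=
    comp_pow (Computable.const 2) ((comp_Rb M k p C).comp hl)
  have hv : Computable (fun z => w z / 2 ^ Rb M k p C (l z)) := comp_div hw hR
  have hr : Computable (fun z => w z % 2 ^ Rb M k p C (l z)) := comp_mod hw hR
  have hi : Computable (fun z => inp k p C (l z) (x z) (x' z) (w z / 2 ^ Rb M k p C (l z))) :=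
    comp_inp k p C hl hx hx' hv
  have hb := comp_bitsOf (M.coins_computable.comp hi) hr
  have hrun := M.run_computable.comp (hi.pair hb)
  exact Computable.encode.comp (Primrec.list_headI.to_comp.comp hrun)

end computability

end Pool.Agent.Lib.MP_eed1a0_lc
end

section

/-! The computable search for encodings fooling the algorithm. -/

namespace Pool.Agent.Lib.MP_eed1a0_lc

open Finset Encodable

/-- number of violations of injectivity -/
def injCount (N : ℕ) (s : ℕ → ℕ) : ℕ :=
  ∑ i ∈ range N, ∑ j ∈ range N, if s i = s j then (if i = j then 0 else 1) else 0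

theorem injCount_eq_zero {N : ℕ} {s : ℕ → ℕ} :
    injCount N s = 0 ↔ ∀ i < N, ∀ j < N, s i = s j → i = j := by
  unfold injCount
  simp only [sum_eq_zero_iff, mem_range]
  constructor
  · intro h i hi j hj hs
    have := h i hi j hj
    rw [if_pos hs] at this
    by_contra hne
    rw [if_neg hne] at this
    omega
  · intro h i hi j hj
    by_cases hs : s i = s j
    · rw [if_pos hs, if_pos (h i hi j hj hs)]
    · rw [if_neg hs]

/-- five parameters: the modulus and two affine maps -/
abbrev Par := ℕ × ℕ × ℕ × ℕ × ℕ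

/-- first encoding -/
def sE (w : Par) (i : ℕ) : ℕ := aff w.1 w.2.1 w.2.2.1 i

/-- second encoding -/
def tE (w : Par) (i : ℕ) : ℕ := aff w.1 w.2.2.2.1 w.2.2.2.2 i

variable (M : RandAlg) (k p C D : ℕ)

/-- the parameters `w` are good at scale `l` -/
def Good (l : ℕ) (w : Par) : Prop :=
  ((2 ^ 2 ^ l ≤ w.1 ∧ w.1 ≤ 2 ^ (2 ^ l + 1)) ∧
  (injCount (2 ^ (C * l) * 2 ^ (D * l)) (sE w) ≤ 0 ∧
   injCount (2 ^ (C * l) * 2 ^ (D * l)) (tE w) ≤ 0)) ∧
  foolSum w.1 (2 ^ (C * l)) (2 ^ (D * l)) (Wd M k p C l) (sE w) (tE w) (Gf M k p C l) ≤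
    16 * 2 ^ (C * l) * (2 ^ (D * l)) ^ 3 * Wd M k p C l ^ 2

theorem exists_good {l : ℕ} (hl : (C + D) * l ≤ 2 ^ l) : ∃ w, Good M k p C D l w := by
  obtain ⟨P, hp, h1, h2⟩ := Nat.exists_prime_lt_and_le_two_mul (2 ^ 2 ^ l) (by positivity)
  have : Fact P.Prime := ⟨hp⟩
  have hAB : 2 ^ (C * l) * 2 ^ (D * l) ≤ P := by
    rw [← pow_add, ← add_mul]
    exact (Nat.pow_le_pow_right (by norm_num) hl).trans h1.le
  obtain ⟨α, β, α', β', h3, h4, h5⟩ := exists_fool (q := P) (2 ^ (C * l)) (2 ^ (D * l))
    (Wd M k p C l) hAB (Gf M k p C l)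
  refine ⟨(P, α, β, α', β'), ⟨⟨h1.le, ?_⟩, ?_, ?_⟩, h5⟩
  · rw [pow_succ, mul_comm]; exact h2
  · exact (injCount_eq_zero.2 h3).le
  · exact (injCount_eq_zero.2 h4).le

theorem exists_sel (l : ℕ) :
    ∃ n : ℕ, Good M k p C D l (Denumerable.ofNat Par n) ∨ 2 ^ l < (C + D) * l := by
  by_cases hl : (C + D) * l ≤ 2 ^ l
  · obtain ⟨w, hw⟩ := exists_good M k p C D hl
    exact ⟨encode w, Or.inl (by rwa [Denumerable.ofNat_encode])⟩
  · exact ⟨0, Or.inr (not_le.1 hl)⟩

section computability

variable {β : Type*} [Primcodable β]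

theorem comp_aff {q a b i : β → ℕ} (hq : Computable q) (ha : Computable a) (hb : Computable b)
    (hi : Computable i) : Computable fun z => aff (q z) (a z) (b z) (i z) :=
  comp_mod (comp_add ha (comp_mul hb hi)) hq

theorem comp_sE {w : β → Par} {i : β → ℕ} (hw : Computable w) (hi : Computable i) :
    Computable fun z => sE (w z) (i z) := by
  have h1 : Computable fun z => (w z).1 := Computable.fst.comp hw
  have h2 : Computable fun z => (w z).2.1 := Computable.fst.comp (Computable.snd.comp hw)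
  have h3 : Computable fun z => (w z).2.2.1 :=
    Computable.fst.comp (Computable.snd.comp (Computable.snd.comp hw))
  exact comp_aff h1 h2 h3 hi

theorem comp_tE {w : β → Par} {i : β → ℕ} (hw : Computable w) (hi : Computable i) :
    Computable fun z => tE (w z) (i z) := by
  have h1 : Computable fun z => (w z).1 := Computable.fst.comp hw
  have h2 : Computable fun z => (w z).2.2.2.1 :=
    Computable.fst.comp (Computable.snd.comp (Computable.snd.comp (Computable.snd.comp hw)))
  have h3 : Computable fun z => (w z).2.2.2.2 :=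
    Computable.snd.comp (Computable.snd.comp (Computable.snd.comp (Computable.snd.comp hw)))
  exact comp_aff h1 h2 h3 hi

theorem comp_injCount {n : β → ℕ} {s : β → ℕ → ℕ} (hn : Computable n) (hs : Computable₂ s) :
    Computable fun z => injCount (n z) (s z) := by
  unfold injCount
  have f0 : Computable (fun z : (β × ℕ) × ℕ => z.1.1) := Computable.fst.comp Computable.fst
  have f1 : Computable (fun z : (β × ℕ) × ℕ => z.1.2) := Computable.snd.comp Computable.fst
  have f2 : Computable (fun z : (β × ℕ) × ℕ => z.2) := Computable.snd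
  have g1 : Computable (fun z : (β × ℕ) × ℕ => s z.1.1 z.1.2) := Computable₂.comp hs f0 f1
  have g2 : Computable (fun z : (β × ℕ) × ℕ => s z.1.1 z.2) := Computable₂.comp hs f0 f2
  have h3 : Computable (fun z : (β × ℕ) × ℕ => if z.1.2 = z.2 then 0 else 1) :=
    comp_ite (cpred_eq f1 f2) (Computable.const 0) (Computable.const 1)
  have h2 : Computable (fun z : (β × ℕ) × ℕ =>
      if s z.1.1 z.1.2 = s z.1.1 z.2 then (if z.1.2 = z.2 then 0 else 1) else 0) :=
    comp_ite (cpred_eq g1 g2) h3 (Computable.const 0)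
  have h1 : Computable (fun z : β × ℕ => ∑ j ∈ range (n z.1),
      if s z.1 z.2 = s z.1 j then (if z.2 = j then 0 else 1) else 0) :=
    comp_sum_range h2 (hn.comp Computable.fst)
  exact comp_sum_range h1 hn

theorem comp_pow_mul (C : ℕ) {l : β → ℕ} (hl : Computable l) :
    Computable fun z => 2 ^ (C * l z) :=
  comp_pow (Computable.const 2) (comp_mul (Computable.const C) hl)

theorem cpred_Good : ComputablePred (fun z : ℕ × Par => Good M k p C D z.1 z.2) := by
  unfold Good
  have hl : Computable (fun z : ℕ × Par => z.1) := Computable.fst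
  have hw : Computable (fun z : ℕ × Par => z.2) := Computable.snd
  have hq : Computable (fun z : ℕ × Par => z.2.1) := Computable.fst.comp Computable.snd
  have hA := comp_pow_mul C hl
  have hB := comp_pow_mul D hl
  have hAB := comp_mul hA hB
  have h2l : Computable (fun z : ℕ × Par => 2 ^ z.1) := comp_pow (Computable.const 2) hl
  have hs : Computable₂ (fun (z : ℕ × Par) (i : ℕ) => sE z.2 i) :=
    comp_sE (hw.comp Computable.fst) Computable.snd
  have ht : Computable₂ (fun (z : ℕ × Par) (i : ℕ) => tE z.2 i) :=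
    comp_tE (hw.comp Computable.fst) Computable.snd
  have hW : Computable (fun z : ℕ × Par => Wd M k p C z.1) := (comp_Wd M k p C).comp hl
  have hG : Computable fun z : (ℕ × Par) × ℕ × ℕ × ℕ =>
      Gf M k p C z.1.1 z.2.1 z.2.2.1 z.2.2.2 := by
    have e1 : Computable fun z : (ℕ × Par) × ℕ × ℕ × ℕ => z.1.1 :=
      Computable.fst.comp Computable.fst
    have e2 : Computable fun z : (ℕ × Par) × ℕ × ℕ × ℕ => z.2.1 :=
      Computable.fst.comp Computable.snd
    have e3 : Computable fun z : (ℕ × Par) × ℕ × ℕ × ℕ => z.2.2.1 :=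
      Computable.fst.comp (Computable.snd.comp Computable.snd)
    have e4 : Computable fun z : (ℕ × Par) × ℕ × ℕ × ℕ => z.2.2.2 :=
      Computable.snd.comp (Computable.snd.comp Computable.snd)
    exact comp_Gf M k p C e1 e2 e3 e4
  refine cpred_and (cpred_and (cpred_and ?_ ?_) (cpred_and ?_ ?_)) ?_
  · exact cpred_le (comp_pow (Computable.const 2) h2l) hq
  · exact cpred_le hq (comp_pow (Computable.const 2) (comp_add h2l (Computable.const 1)))
  · exact cpred_le (comp_injCount hAB hs) (Computable.const 0)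
  · exact cpred_le (comp_injCount hAB ht) (Computable.const 0)
  · exact cpred_le (comp_foolSum hq hA hB hW hs ht hG)
      (comp_mul (comp_mul (comp_mul (Computable.const 16) hA) (comp_pow hB (Computable.const 3)))
        (comp_pow hW (Computable.const 2)))

end computability

open Classical in
/-- the selected parameters at scale `l` -/
noncomputable def sel (l : ℕ) : Par := Denumerable.ofNat Par (Nat.find (exists_sel M k p C D l))

theorem comp_sel : Computable (sel M k p C D) := by
  classical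
  unfold sel
  have h1 : ComputablePred (fun z : ℕ × ℕ => Good M k p C D z.1 (Denumerable.ofNat Par z.2) ∨
      2 ^ z.1 < (C + D) * z.1) := by
    refine cpred_or ?_ ?_
    · have h2 : Computable (fun z : ℕ × ℕ => (z.1, Denumerable.ofNat Par z.2)) :=
        Computable.fst.pair ((Computable.ofNat Par).comp Computable.snd)
      obtain ⟨_, h3⟩ := cpred_Good M k p C D
      have h4 := h3.comp h2
      refine ⟨inferInstance, ?_⟩
      refine h4.of_eq ?_
      intro a
      congr
    · exact cpred_lt (comp_pow (Computable.const 2) Computable.fst)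
        (comp_mul (Computable.const (C + D)) Computable.fst)
  have h2 := Computable.find (P := fun l n => Good M k p C D l (Denumerable.ofNat Par n) ∨
      2 ^ l < (C + D) * l) h1 (exists_sel M k p C D)
  exact (Computable.ofNat Par).comp h2

theorem good_sel {l : ℕ} (hl : (C + D) * l ≤ 2 ^ l) : Good M k p C D l (sel M k p C D l) := by
  classical
  have := Nat.find_spec (exists_sel M k p C D l)
  rcases this with h | h
  · exact h
  · omega

end Pool.Agent.Lib.MP_eed1a0_lc
end

section

/-! Popular outputs have small complexity. -/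

namespace Pool.Agent.Lib.MP_eed1a0_lc

open Finset Encodable

theorem sum_cnt_le (q W : ℕ) (G : ℕ → ℕ → ℕ → ℕ) (S : Finset ℕ) :
    ∑ y ∈ S, cnt q W (fun x => x) (fun x => x) G y ≤ q ^ 2 * W := by
  unfold cnt
  rw [sum_comm]
  calc _ ≤ ∑ b ∈ range q, ∑ c ∈ range q, ∑ w ∈ range W, 1 := by
        refine sum_le_sum fun b _ => ?_
        rw [sum_comm]
        refine sum_le_sum fun c _ => ?_
        rw [sum_comm]
        refine sum_le_sum fun w _ => ?_
        rw [sum_ite_eq]
        split_ifs <;> simp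
    _ = _ := by simp [sq, mul_assoc]

theorem card_pop_le {q B W : ℕ} {G : ℕ → ℕ → ℕ → ℕ} (hq : 0 < q) (hW : 0 < W) (S : Finset ℕ)
    (hS : ∀ y ∈ S, Pop q B W G y) : 2 * S.card ≤ B := by
  have h1 : ∑ y ∈ S, 2 * q ^ 2 * W ≤ ∑ y ∈ S, B * cnt q W (fun x => x) (fun x => x) G y :=
    sum_le_sum fun y hy => hS y hy
  rw [sum_const, smul_eq_mul, ← mul_sum] at h1
  have h2 := Nat.mul_le_mul_left B (sum_cnt_le q W G S)
  have h3 : (2 * S.card) * (q ^ 2 * W) ≤ B * (q ^ 2 * W) := by
    calc _ = S.card * (2 * q ^ 2 * W) := by ring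
      _ ≤ _ := h1.trans h2
  exact Nat.le_of_mul_le_mul_right h3 (by positivity)

variable (M : RandAlg) (k p C D : ℕ)

/-- popularity at scale `l` -/
def PopL (l y : ℕ) : Prop :=
  Pop (sel M k p C D l).1 (2 ^ (D * l)) (Wd M k p C l) (Gf M k p C l) y

open Classical in
/-- the number of smaller popular values -/
noncomputable def popIdx (l y : ℕ) : ℕ := ∑ z ∈ range y, if PopL M k p C D l z then 1 else 0

theorem cpred_PopL : ComputablePred (fun z : ℕ × ℕ => PopL M k p C D z.1 z.2) := by
  unfold PopL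
  have hl : Computable (fun z : ℕ × ℕ => z.1) := Computable.fst
  have hq : Computable (fun z : ℕ × ℕ => (sel M k p C D z.1).1) :=
    Computable.fst.comp ((comp_sel M k p C D).comp hl)
  have hG : Computable fun z : (ℕ × ℕ) × ℕ × ℕ × ℕ =>
      Gf M k p C z.1.1 z.2.1 z.2.2.1 z.2.2.2 := by
    have e1 : Computable fun z : (ℕ × ℕ) × ℕ × ℕ × ℕ => z.1.1 :=
      Computable.fst.comp Computable.fst
    have e2 : Computable fun z : (ℕ × ℕ) × ℕ × ℕ × ℕ => z.2.1 :=
      Computable.fst.comp Computable.snd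
    have e3 : Computable fun z : (ℕ × ℕ) × ℕ × ℕ × ℕ => z.2.2.1 :=
      Computable.fst.comp (Computable.snd.comp Computable.snd)
    have e4 : Computable fun z : (ℕ × ℕ) × ℕ × ℕ × ℕ => z.2.2.2 :=
      Computable.snd.comp (Computable.snd.comp Computable.snd)
    exact comp_Gf M k p C e1 e2 e3 e4
  exact cpred_Pop hq (comp_pow_mul D hl) ((comp_Wd M k p C).comp hl) Computable.snd hG

theorem comp_popIdx : Computable₂ (fun l y : ℕ => popIdx M k p C D l y) := by
  classical
  unfold popIdx
  have h1 : Computable (fun z : (ℕ × ℕ) × ℕ => (z.1.1, z.2)) :=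
    (Computable.fst.comp Computable.fst).pair Computable.snd
  have h2 : ComputablePred (fun z : (ℕ × ℕ) × ℕ => PopL M k p C D z.1.1 z.2) := by
    obtain ⟨_, h3⟩ := cpred_PopL M k p C D
    refine ⟨inferInstance, (h3.comp h1).of_eq ?_⟩
    intro a
    congr
  have h3 : Computable (fun z : (ℕ × ℕ) × ℕ => if PopL M k p C D z.1.1 z.2 then 1 else 0) :=
    comp_ite h2 (Computable.const 1) (Computable.const 0)
  exact comp_sum_range h3 Computable.snd

open Classical in
/-- the `i`-th popular value at scale `l`, as a string -/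
noncomputable def popStr (z : ℕ × ℕ) : Part (List Bool) :=
  (Nat.rfind (fun y => Part.some (decide (PopL M k p C D z.1 y ∧ popIdx M k p C D z.1 y = z.2)))).map
    (fun y => ((decode y : Option (List Bool)).getD []))

theorem partrec_popStr : Partrec (popStr M k p C D) := by
  classical
  unfold popStr
  have f1 : Computable (fun z : (ℕ × ℕ) × ℕ => (z.1.1, z.2)) :=
    (Computable.fst.comp Computable.fst).pair Computable.snd
  have h1 : ComputablePred (fun z : (ℕ × ℕ) × ℕ =>
      PopL M k p C D z.1.1 z.2 ∧ popIdx M k p C D z.1.1 z.2 = z.1.2) := by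
    refine cpred_and ?_ ?_
    · obtain ⟨_, h3⟩ := cpred_PopL M k p C D
      refine ⟨inferInstance, (h3.comp f1).of_eq ?_⟩
      intro a
      congr
    · have g1 : Computable (fun z : (ℕ × ℕ) × ℕ => popIdx M k p C D z.1.1 z.2) :=
        Computable₂.comp (comp_popIdx M k p C D) (Computable.fst.comp Computable.fst) Computable.snd
      have g2 : Computable (fun z : (ℕ × ℕ) × ℕ => z.1.2) := Computable.snd.comp Computable.fst
      exact cpred_eq g1 g2
  have h2 : Computable (fun z : (ℕ × ℕ) × ℕ =>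
      decide (PopL M k p C D z.1.1 z.2 ∧ popIdx M k p C D z.1.1 z.2 = z.1.2)) := h1.decide
  have h3 : Partrec (fun z : ℕ × ℕ => Nat.rfind (fun y => Part.some
      (decide (PopL M k p C D z.1 y ∧ popIdx M k p C D z.1 y = z.2)))) :=
    Partrec.rfind (Computable₂.partrec₂ h2)
  have h4 : Computable (fun z : (ℕ × ℕ) × ℕ => ((decode z.2 : Option (List Bool)).getD [])) :=
    Computable.option_getD (Computable.decode.comp Computable.snd) (Computable.const [])
  exact h3.map h4

theorem exists_KC_popular_le {U : List Bool →. List Bool} (hU : IsOptimal U) (hD : 0 < D) :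
    ∃ d : ℕ, ∀ l : ℕ, 0 < (sel M k p C D l).1 → ∀ z : List Bool, PopL M k p C D l (encode z) →
      KC U z ≤ D * l + d := by
  classical
  obtain ⟨d, hd⟩ := exists_KC_bound hU (partrec_popStr M k p C D) hD
  refine ⟨d, fun l hq z hz => ?_⟩
  have hW : 0 < Wd M k p C l := by unfold Wd; positivity
  refine hd l (popIdx M k p C D l (encode z)) ?_ z ?_
  · -- few popular values
    have h1 := card_pop_le (B := 2 ^ (D * l)) (G := Gf M k p C l) hq hW
      ((range (encode z + 1)).filter (fun y => PopL M k p C D l y))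
      (fun y hy => (mem_filter.1 hy).2)
    have h2 : ((range (encode z + 1)).filter (fun y => PopL M k p C D l y)).card =
        popIdx M k p C D l (encode z) + 1 := by
      rw [card_filter, sum_range_succ, if_pos hz]
      rfl
    rw [h2] at h1
    omega
  · unfold popStr
    rw [Part.mem_map_iff]
    refine ⟨encode z, ?_, by simp⟩
    refine Nat.mem_rfind.2 ⟨by simp [hz], ?_⟩
    intro m hm
    simp only [Part.mem_some_iff, false_eq_decide_iff, not_and]
    intro hpm heq
    have h3 : popIdx M k p C D l m + 1 ≤ popIdx M k p C D l (encode z) := by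
      have h4 : popIdx M k p C D l (m + 1) = popIdx M k p C D l m + 1 := by
        unfold popIdx
        rw [sum_range_succ, if_pos hpm]
      rw [← h4]
      unfold popIdx
      exact sum_le_sum_of_subset (range_subset_range.2 hm)
    omega

end Pool.Agent.Lib.MP_eed1a0_lc
end

section

/-! Auxiliary counting facts: candidate profiles, coins. -/

namespace Pool.Agent.Lib.MP_eed1a0_lc

open Finset Encodable

theorem digits_surj (l : ℕ) (L : List ℕ) (hL : ∀ x ∈ L, x < 2 ^ l) :
    ∃ v < 2 ^ (L.length * l), (List.range L.length).map (fun k => v / 2 ^ (l * k) % 2 ^ l) = L := by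
  induction L with
  | nil => exact ⟨0, by simp, by simp⟩
  | cons h L ih =>
    obtain ⟨v, hv, hvL⟩ := ih (fun x hx => hL x (List.mem_cons_of_mem _ hx))
    have hh : h < 2 ^ l := hL h List.mem_cons_self
    refine ⟨h + 2 ^ l * v, ?_, ?_⟩
    · rw [List.length_cons, Nat.succ_mul, pow_add]
      calc h + 2 ^ l * v < 2 ^ l + 2 ^ l * v := by omega
        _ = 2 ^ l * (v + 1) := by ring
        _ ≤ 2 ^ l * 2 ^ (L.length * l) := Nat.mul_le_mul_left _ hv
        _ = _ := by ring
    · rw [List.length_cons, List.range_succ_eq_map, List.map_cons, List.map_map]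
      congr 1
      · simp [Nat.add_mul_mod_self_left, Nat.mod_eq_of_lt hh]
      · conv_rhs => rw [← hvL]
        apply List.map_congr_left
        intro k _
        simp only [Function.comp_apply]
        rw [Nat.succ_eq_add_one, mul_add, mul_one, add_comm (l * k) l, pow_add,
          ← Nat.div_div_eq_div_mul]
        congr 2
        rw [Nat.add_mul_div_left _ _ (by positivity), Nat.div_eq_of_lt hh, zero_add]

theorem vlist_surj (p l : ℕ) (L : List ℕ) (hp : L.length = p) (hL : ∀ x ∈ L, x < 2 ^ l) :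
    ∃ v < 2 ^ (p * l), vlist p l v = L := by
  obtain ⟨v, hv, h⟩ := digits_surj l L hL
  rw [hp] at hv h
  exact ⟨v, hv, h⟩

theorem coins_le {r R : ℕ} (h : r ≤ R) (Q : List Bool → Prop) [DecidablePred Q] :
    2 ^ (R - r) * Nat.card {z : Fin r → Bool // Q (List.ofFn z)} ≤
      ((range (2 ^ R)).filter (fun w => Q (bitsOf r w))).card := by
  have h1 : Nat.card {z : Fin r → Bool // Q (List.ofFn z)} =
      ((univ : Finset (Fin r → Bool)).filter (fun z => Q (List.ofFn z))).card := by
    rw [Nat.card_eq_fintype_card, Fintype.card_subtype]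
  rw [h1]
  have key : ∀ z : Fin r → Bool, val (List.ofFn z) < 2 ^ r := by
    intro z
    have := val_lt (List.ofFn z)
    rwa [List.length_ofFn] at this
  have hmod : ∀ (z : Fin r → Bool) (m : ℕ), (val (List.ofFn z) + 2 ^ r * m) % 2 ^ r =
      val (List.ofFn z) := by
    intro z m
    rw [Nat.add_mul_mod_self_left, Nat.mod_eq_of_lt (key z)]
  have := card_le_card_of_injOn
    (s := ((univ : Finset (Fin r → Bool)).filter (fun z => Q (List.ofFn z))) ×ˢ
      range (2 ^ (R - r)))
    (t := (range (2 ^ R)).filter (fun w => Q (bitsOf r w)))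
    (fun p => val (List.ofFn p.1) + 2 ^ r * p.2) ?_ ?_
  · rw [card_product, card_range] at this
    rwa [mul_comm] at this
  · rintro ⟨z, m⟩ hp
    rw [mem_coe, mem_product, mem_filter, mem_range] at hp
    rw [mem_coe, mem_filter, mem_range]
    constructor
    · have h2 : m + 1 ≤ 2 ^ (R - r) := hp.2
      calc val (List.ofFn z) + 2 ^ r * m < 2 ^ r + 2 ^ r * m := by have := key z; omega
        _ = 2 ^ r * (m + 1) := by ring
        _ ≤ 2 ^ r * 2 ^ (R - r) := Nat.mul_le_mul_left _ h2
        _ = 2 ^ R := by rw [← pow_add]; congr 1; omega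
    · have h3 : bitsOf r (val (List.ofFn z) + 2 ^ r * m) = List.ofFn z := by
        rw [← bitsOf_mod, hmod]
        have := bitsOf_val (List.ofFn z)
        rwa [List.length_ofFn] at this
      rw [h3]
      exact hp.1.2
  · rintro ⟨z, m⟩ _ ⟨z', m'⟩ _ heq
    simp only at heq
    have e1 : val (List.ofFn z) = val (List.ofFn z') := by
      rw [← hmod z m, ← hmod z' m', heq]
    have e2 : m = m' := by
      rw [e1] at heq
      have : 2 ^ r * m = 2 ^ r * m' := by omega
      exact Nat.eq_of_mul_eq_mul_left (by positivity) this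
    have e3 : List.ofFn z = List.ofFn z' := by
      have a1 := bitsOf_val (List.ofFn z)
      have a2 := bitsOf_val (List.ofFn z')
      rw [List.length_ofFn] at a1 a2
      rw [← a1, ← a2, e1]
    rw [List.ofFn_injective e3, e2]

theorem sq_le_two_pow (n : ℕ) (hn : 4 ≤ n) : n ^ 2 ≤ 2 ^ n := by
  induction n, hn using Nat.le_induction with
  | base => norm_num
  | succ n hn ih =>
    rw [pow_succ 2 n]
    nlinarith

/-- linear functions are eventually below `2 ^ l` -/
theorem lin_lt_two_pow (a b l : ℕ) (h : a + b + 4 ≤ l) : a * l + b < 2 ^ l := by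
  have h1 := sq_le_two_pow l (by omega)
  have h2 : a * l + b < l ^ 2 := by
    have : (a + b + 4) * l ≤ l * l := Nat.mul_le_mul_right l h
    nlinarith
  omega

end Pool.Agent.Lib.MP_eed1a0_lc
end

section

/-! Assembly of the proof. -/

namespace Pool.Agent.Lib.MP_eed1a0_lc

open Finset Encodable

variable {U : List Bool →. List Bool} {pr : List Bool → List Bool → List Bool}

/-- the nonempty sets of positions below `t`, as increasing lists -/
def idxs (t : ℕ) : List (List ℕ) := (List.range t).sublists.filter (fun S => !S.isEmpty)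

theorem profile_eq (L : List (List Bool)) :
    profile U pr L = (idxs L.length).map
      (fun S => KC U (tupleCode pr (S.map (fun i => L.getD i [])))) := by
  have hL : L = (List.range L.length).map (fun i => L.getD i []) := by
    apply List.ext_getElem
    · simp
    · intro i h1 h2
      rw [List.getElem_map, List.getElem_range, List.getD_eq_getElem _ _ h1]
  unfold profile idxs
  conv_lhs => rw [hL]
  rw [List.sublists_map, List.filter_map, List.map_map]
  congr 1
  apply List.filter_congr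
  intro S _
  simp

theorem length_profile (L : List (List Bool)) :
    (profile U pr L).length = (idxs L.length).length := by
  rw [profile_eq, List.length_map]

theorem singleton_mem_idxs {i t : ℕ} (h : i < t) : [i] ∈ idxs t := by
  unfold idxs
  rw [List.mem_filter, List.mem_sublists]
  exact ⟨List.singleton_sublist.2 (List.mem_range.2 h), by simp⟩

theorem pair_mem_idxs {i j t : ℕ} (hij : i < j) (h : j < t) : [i, j] ∈ idxs t := by
  unfold idxs
  rw [List.mem_filter, List.mem_sublists]
  refine ⟨?_, by simp⟩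
  have h1 : [i, j] = [i] ++ [j] := rfl
  have h2 : (List.range j ++ [j]).Sublist (List.range t) := by
    rw [← List.range_succ]
    exact List.range_sublist.2 h
  rw [h1]
  exact ((List.singleton_sublist.2 (List.mem_range.2 hij)).append (List.Sublist.refl _)).trans h2

/-- closeness of the profiles, entry by entry -/
theorem valid_entry {c : ℝ} {x y y' : List (List Bool)} (h : Valid U pr c x y y')
    {S : List ℕ} (hS : S ∈ idxs (x ++ y).length) :
    |(KC U (tupleCode pr (S.map (fun i => (x ++ y').getD i []))) : ℝ) -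
      KC U (tupleCode pr (S.map (fun i => (x ++ y).getD i [])))| ≤
      c * Real.log (totalLength (x ++ y)) := by
  obtain ⟨hlen, hfor⟩ := h
  have hlen' : (x ++ y').length = (x ++ y).length := by
    rw [List.length_append, List.length_append, hlen]
  rw [profile_eq, profile_eq, hlen', List.forall₂_map_left_iff, List.forall₂_map_right_iff,
    List.forall₂_same] at hfor
  exact hfor S hS

theorem finite_KC_le (hU : IsOptimal U) (m : ℕ) : {z : List Bool | KC U z ≤ m}.Finite := by
  by_contra hinf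
  have hinf' : {z : List Bool | KC U z ≤ m}.Infinite := hinf
  obtain ⟨T, hT, hcard⟩ := hinf'.exists_subset_card_eq (2 ^ (m + 1) + 1)
  have := card_le_of_KC_le hU T id (fun _ _ _ _ h => h) m (fun z hz => hT hz)
  omega

theorem finite_aux (hU : IsOptimal U) (hinj : ∀ a b a' b', pr a b = pr a' b' → a = a' ∧ b = b')
    (x : List Bool) (m : ℕ) :
    {n : ℕ | ∃ z : List Bool, encode z = n ∧ KC U (pr x z) ≤ m}.Finite := by
  have h1 : {z : List Bool | KC U (pr x z) ≤ m}.Finite := by
    apply Set.Finite.of_finite_image (f := fun z => pr x z) _ (fun a _ b _ h => (hinj _ _ _ _ h).2)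
    refine (finite_KC_le hU m).subset ?_
    rintro _ ⟨z, hz, rfl⟩
    exact hz
  refine (h1.image encode).subset ?_
  rintro n ⟨z, rfl, hz⟩
  exact ⟨z, hz, rfl⟩

open Classical in
/-- codes of the strings `z` such that `(x, z)` has complexity at most `m` -/
noncomputable def Eset (U : List Bool →. List Bool) (pr : List Bool → List Bool → List Bool)
    (x : List Bool) (m : ℕ) : Finset ℕ :=
  if h : {n : ℕ | ∃ z : List Bool, encode z = n ∧ KC U (pr x z) ≤ m}.Finite then h.toFinset else ∅

theorem mem_Eset (hU : IsOptimal U) (hinj : ∀ a b a' b', pr a b = pr a' b' → a = a' ∧ b = b')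
    {x : List Bool} {m n : ℕ} :
    n ∈ Eset U pr x m ↔ ∃ z : List Bool, encode z = n ∧ KC U (pr x z) ≤ m := by
  unfold Eset
  rw [dif_pos (finite_aux hU hinj x m)]
  simp

theorem sum_Eset_le (hU : IsOptimal U) (hinj : ∀ a b a' b', pr a b = pr a' b' → a = a' ∧ b = b')
    {A B l m : ℕ} {s : ℕ → ℕ} (hs : ∀ i < A * B, ∀ j < A * B, s i = s j → i = j)
    (hlt : ∀ i, s i < 2 ^ (2 ^ l + 1)) :
    ∑ a ∈ range A, ∑ b ∈ range B, (Eset U pr (xs l (s (a * B + b))) m).card ≤ 2 ^ (m + 1) := by
  classical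
  have hidx : ∀ a < A, ∀ b < B, a * B + b < A * B := by
    intro a ha b hb
    calc a * B + b < a * B + B := by omega
      _ = (a + 1) * B := by ring
      _ ≤ A * B := Nat.mul_le_mul_right _ ha
  rw [← sum_product', ← card_sigma]
  refine card_le_of_KC_le hU _ (fun σ => pr (xs l (s (σ.1.1 * B + σ.1.2)))
    ((decode σ.2 : Option (List Bool)).getD [])) ?_ m ?_
  · rintro ⟨⟨a, b⟩, n⟩ h1 ⟨⟨a', b'⟩, n'⟩ h2 heq
    simp only [coe_sigma, Set.mem_sigma_iff, mem_coe, mem_product, mem_range] at h1 h2 heq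
    obtain ⟨⟨ha, hb⟩, hn⟩ := h1
    obtain ⟨⟨ha', hb'⟩, hn'⟩ := h2
    rw [mem_Eset hU hinj] at hn hn'
    obtain ⟨z, rfl, -⟩ := hn
    obtain ⟨z', rfl, -⟩ := hn'
    obtain ⟨e1, e2⟩ := hinj _ _ _ _ heq
    simp only [encodek, Option.getD_some] at e2
    have e3 := bitsOf_injOn (hlt _) (hlt _) e1
    have e4 := hs _ (hidx a ha b hb) _ (hidx a' ha' b' hb') e3
    have e5 : a = a' := by
      have h3 : (a * B + b) / B = a := by
        rw [mul_comm, Nat.mul_add_div (by omega), Nat.div_eq_of_lt hb, add_zero]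
      have h4 : (a' * B + b') / B = a' := by
        rw [mul_comm, Nat.mul_add_div (by omega), Nat.div_eq_of_lt hb', add_zero]
      rw [← h3, ← h4, e4]
    subst e5
    have e6 : b = b' := by omega
    subst e6
    rw [e2]
  · rintro ⟨⟨a, b⟩, n⟩ h1
    simp only [mem_sigma, mem_product, mem_range] at h1
    obtain ⟨-, hn⟩ := h1
    rw [mem_Eset hU hinj] at hn
    obtain ⟨z, rfl, hz⟩ := hn
    simpa using hz

theorem card_good_labels (hU : IsOptimal U) (C l : ℕ) (hCl : 2 ≤ C * l) :
    2 ^ (C * l) ≤ 2 * ((range (2 ^ (C * l))).filter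
      (fun a => C * l ≤ KC U (lab C l a) + 1)).card := by
  have h1 : ((range (2 ^ (C * l))).filter (fun a => ¬ C * l ≤ KC U (lab C l a) + 1)).card ≤
      2 ^ (C * l - 2 + 1) := by
    refine card_le_of_KC_le hU _ (lab C l) ?_ _ ?_
    · intro a ha b hb h
      rw [mem_coe, mem_filter, mem_range] at ha hb
      exact bitsOf_injOn ha.1 hb.1 h
    · intro a ha
      rw [mem_filter] at ha
      omega
  have h2 := card_filter_add_card_filter_not (s := range (2 ^ (C * l)))
    (fun a => C * l ≤ KC U (lab C l a) + 1)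
  rw [card_range] at h2
  have h3 : 2 ^ (C * l) = 2 * 2 ^ (C * l - 2 + 1) := by
    rw [← pow_succ']
    congr 1
    omega
  omega

/-- the tight complexity bound for the pairs (string, label) -/
theorem exists_tight (hU : IsOptimal U) (hpr : Computable₂ pr) (M : RandAlg) (k p C D : ℕ)
    (hD : 0 < D) : ∃ d : ℕ, ∀ l : ℕ, ∀ i < 2 ^ ((C + D) * l),
      KC U (pr (xs l (sE (sel M k p C D l) i)) (lab C l (i / 2 ^ (D * l)))) ≤ (C + D) * l + d ∧
      KC U (pr (xs l (tE (sel M k p C D l) i)) (lab C l (i / 2 ^ (D * l)))) ≤ (C + D) * l + d := by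
  have hl : Computable (fun z : ℕ × ℕ => z.1) := Computable.fst
  have hi : Computable (fun z : ℕ × ℕ => z.2) := Computable.snd
  have hw : Computable (fun z : ℕ × ℕ => sel M k p C D z.1) := (comp_sel M k p C D).comp hl
  have hlab : Computable (fun z : ℕ × ℕ => lab C z.1 (z.2 / 2 ^ (D * z.1))) :=
    comp_lab C hl (comp_div hi (comp_pow_mul D hl))
  have h1 : Computable (fun z : ℕ × ℕ => pr (xs z.1 (sE (sel M k p C D z.1) z.2))
      (lab C z.1 (z.2 / 2 ^ (D * z.1)))) :=
    Computable₂.comp hpr (comp_xs hl (comp_sE hw hi)) hlab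
  have h2 : Computable (fun z : ℕ × ℕ => pr (xs z.1 (tE (sel M k p C D z.1) z.2))
      (lab C z.1 (z.2 / 2 ^ (D * z.1)))) :=
    Computable₂.comp hpr (comp_xs hl (comp_tE hw hi)) hlab
  obtain ⟨d1, hd1⟩ := exists_KC_bound hU h1.partrec (e := C + D) (by omega)
  obtain ⟨d2, hd2⟩ := exists_KC_bound hU h2.partrec (e := C + D) (by omega)
  refine ⟨d1 + d2, fun l i hli => ⟨?_, ?_⟩⟩
  · have := hd1 l i hli _ (Part.mem_some _)
    exact this.trans (by omega)
  · have := hd2 l i hli _ (Part.mem_some _)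
    exact this.trans (by omega)

/-- the crude complexity bound for functions of the whole triple -/
theorem exists_crude (hU : IsOptimal U) (M : RandAlg) (k p C D : ℕ) (hD : 0 < D)
    (h : List Bool × List Bool × List Bool → List Bool) (hh : Computable h) :
    ∃ d : ℕ, ∀ l : ℕ, ∀ i < 2 ^ ((C + D) * l), ∀ j < 2 ^ ((C + D) * l),
      KC U (h (xs l (sE (sel M k p C D l) i), xs l (tE (sel M k p C D l) j),
        lab C l (i / 2 ^ (D * l)))) ≤ (2 * (C + D)) * l + d := by
  have hl : Computable (fun z : ℕ × ℕ => z.1) := Computable.fst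
  have hN : Computable (fun z : ℕ × ℕ => 2 ^ ((C + D) * z.1)) := comp_pow_mul (C + D) hl
  have hi : Computable (fun z : ℕ × ℕ => z.2 % 2 ^ ((C + D) * z.1)) :=
    comp_mod Computable.snd hN
  have hj : Computable (fun z : ℕ × ℕ => z.2 / 2 ^ ((C + D) * z.1)) :=
    comp_div Computable.snd hN
  have hw : Computable (fun z : ℕ × ℕ => sel M k p C D z.1) := (comp_sel M k p C D).comp hl
  have hlab : Computable (fun z : ℕ × ℕ =>
      lab C z.1 ((z.2 % 2 ^ ((C + D) * z.1)) / 2 ^ (D * z.1))) :=
    comp_lab C hl (comp_div hi (comp_pow_mul D hl))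
  have h3 : Computable (fun z : ℕ × ℕ =>
      (xs z.1 (sE (sel M k p C D z.1) (z.2 % 2 ^ ((C + D) * z.1))),
       xs z.1 (tE (sel M k p C D z.1) (z.2 / 2 ^ ((C + D) * z.1))),
       lab C z.1 ((z.2 % 2 ^ ((C + D) * z.1)) / 2 ^ (D * z.1)))) :=
    (comp_xs hl (comp_sE hw hi)).pair ((comp_xs hl (comp_tE hw hj)).pair hlab)
  have h4 := hh.comp h3
  obtain ⟨d, hd⟩ := exists_KC_bound hU h4.partrec (e := 2 * (C + D)) (by omega)
  refine ⟨d, fun l i hi j hj => ?_⟩
  have hk : i + 2 ^ ((C + D) * l) * j < 2 ^ (2 * (C + D) * l) := by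
    have : 2 ^ (2 * (C + D) * l) = 2 ^ ((C + D) * l) * 2 ^ ((C + D) * l) := by
      rw [← pow_add]; congr 1; ring
    rw [this]
    calc i + 2 ^ ((C + D) * l) * j < 2 ^ ((C + D) * l) + 2 ^ ((C + D) * l) * j := by omega
      _ = 2 ^ ((C + D) * l) * (j + 1) := by ring
      _ ≤ _ := Nat.mul_le_mul_left _ hj
  have := hd l (i + 2 ^ ((C + D) * l) * j) hk _ (Part.mem_some _)
  have e1 : (i + 2 ^ ((C + D) * l) * j) % 2 ^ ((C + D) * l) = i := by
    rw [Nat.add_mul_mod_self_left, Nat.mod_eq_of_lt hi]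
  have e2 : (i + 2 ^ ((C + D) * l) * j) / 2 ^ ((C + D) * l) = j := by
    rw [Nat.add_mul_div_left _ _ (by positivity), Nat.div_eq_of_lt hi, zero_add]
  simp only [e1, e2] at this
  exact this

/-- the string code of a subtuple is a computable function of the three basic strings -/
theorem comp_sub (hpr : Computable₂ pr) (k m : ℕ) (S : List ℕ) :
    Computable (fun z : List Bool × List Bool × List Bool =>
      tupleCode pr (S.map (fun i => (padX k z.1 z.2.1 ++ padY m z.2.2).getD i []))) := by
  have q1 : Computable (fun z : List Bool × List Bool × List Bool => z.1) := Computable.fst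
  have q2 : Computable (fun z : List Bool × List Bool × List Bool => z.2.1) :=
    Computable.fst.comp Computable.snd
  have q3 : Computable (fun z : List Bool × List Bool × List Bool => z.2.2) :=
    Computable.snd.comp Computable.snd
  have hL : Computable (fun z : List Bool × List Bool × List Bool =>
      padX k z.1 z.2.1 ++ padY m z.2.2) :=
    Computable.list_append.comp
      (Computable.list_cons.comp q1 (Computable.list_cons.comp q2 (Computable.const _)))
      (Computable.list_cons.comp q3 (Computable.const _))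
  have hget : ∀ i : ℕ, Computable (fun z : List Bool × List Bool × List Bool =>
      (padX k z.1 z.2.1 ++ padY m z.2.2).getD i []) := fun i =>
    (Primrec.list_getD ([] : List Bool)).to_comp.comp hL (Computable.const i)
  induction S with
  | nil => exact Computable.const _
  | cons i S ih =>
    cases S with
    | nil => exact hget i
    | cons j S =>
      have h1 : Computable (fun z : List Bool × List Bool × List Bool =>
          pr ((padX k z.1 z.2.1 ++ padY m z.2.2).getD i [])
            (tupleCode pr ((j :: S).map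
              (fun i => (padX k z.1 z.2.1 ++ padY m z.2.2).getD i [])))) :=
        Computable₂.comp hpr (hget i) ih
      exact h1

theorem exists_crude_all (hU : IsOptimal U) (hpr : Computable₂ pr) (M : RandAlg)
    (k m p C D : ℕ) (hD : 0 < D) (T : List (List ℕ)) :
    ∃ d : ℕ, ∀ S ∈ T, ∀ l : ℕ, ∀ i < 2 ^ ((C + D) * l), ∀ j < 2 ^ ((C + D) * l),
      KC U (tupleCode pr (S.map (fun n => (padX k (xs l (sE (sel M k p C D l) i))
        (xs l (tE (sel M k p C D l) j)) ++ padY m (lab C l (i / 2 ^ (D * l)))).getD n []))) ≤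
        (2 * (C + D)) * l + d := by
  induction T with
  | nil => exact ⟨0, by simp⟩
  | cons S T ih =>
    obtain ⟨d1, hd1⟩ := ih
    obtain ⟨d2, hd2⟩ := exists_crude hU M k p C D hD _ (comp_sub hpr k m S)
    refine ⟨d1 + d2, fun S' hS' l i hi j hj => ?_⟩
    rcases List.mem_cons.1 hS' with rfl | h
    · exact (hd2 l i hi j hj).trans (by omega)
    · exact (hd1 S' h l i hi j hj).trans (by omega)

end Pool.Agent.Lib.MP_eed1a0_lc
end

section

/-! From the success probability to the counting function. -/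

namespace Pool.Agent.Lib.MP_eed1a0_lc

open Finset Encodable

variable {U : List Bool →. List Bool} {pr : List Bool → List Bool → List Bool}

theorem coins_le_Rb (M : RandAlg) (k p C l X X' v : ℕ) (hX : X < 2 ^ (2 ^ l + 1))
    (hX' : X' < 2 ^ (2 ^ l + 1)) (hv : v < 2 ^ (p * l)) :
    M.coins (inp k p C l X X' v) ≤ Rb M k p C l := by
  unfold Rb
  calc M.coins (inp k p C l X X' v) ≤ ∑ v ∈ range (2 ^ (p * l)), M.coins (inp k p C l X X' v) :=
        single_le_sum (f := fun v => M.coins (inp k p C l X X' v)) (fun _ _ => Nat.zero_le _)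
          (mem_range.2 hv)
    _ ≤ ∑ X' ∈ range (2 ^ (2 ^ l + 1)), ∑ v ∈ range (2 ^ (p * l)),
          M.coins (inp k p C l X X' v) :=
        single_le_sum (f := fun X' => ∑ v ∈ range (2 ^ (p * l)), M.coins (inp k p C l X X' v))
          (fun _ _ => Nat.zero_le _) (mem_range.2 hX')
    _ ≤ _ :=
        single_le_sum (f := fun X => ∑ X' ∈ range (2 ^ (2 ^ l + 1)),
          ∑ v ∈ range (2 ^ (p * l)), M.coins (inp k p C l X X' v))
          (fun _ _ => Nat.zero_le _) (mem_range.2 hX)

theorem totalLength_replicate_nil (n : ℕ) :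
    totalLength (List.replicate n ([] : List Bool)) = 0 := by
  unfold totalLength
  simp

theorem totalLength_pad (k m C l X X' : ℕ) (y : List Bool) (hy : y.length = C * l) :
    totalLength (padX k (xs l X) (xs l X') ++ padY m y) = nTot C l := by
  have h1 := totalLength_replicate_nil (k - 2)
  have h2 := totalLength_replicate_nil (m - 1)
  unfold totalLength at h1 h2 ⊢
  unfold padX padY nTot xs
  simp only [List.map_append, List.map_cons, List.sum_append, List.sum_cons, h1, h2, hy,
    length_bitsOf]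
  ring

theorem length_padX (k : ℕ) (hk : 2 ≤ k) (a b : List Bool) : (padX k a b).length = k := by
  unfold padX
  simp
  omega

theorem length_padY (m : ℕ) (hm : 1 ≤ m) (a : List Bool) : (padY m a).length = m := by
  unfold padY
  simp
  omega

open Classical in
theorem transfer (M : RandAlg) (k m p C l X X' : ℕ)
    (hX : X < 2 ^ (2 ^ l + 1)) (hX' : X' < 2 ^ (2 ^ l + 1)) (y : List Bool)
    (hy : y.length = C * l)
    (hplen : (profile U pr (padX k (xs l X) (xs l X') ++ padY m y)).length = p)
    (hprof : ∀ n ∈ profile U pr (padX k (xs l X) (xs l X') ++ padY m y), n < 2 ^ l) (c δ : ℝ)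
    (hs : δ ≤ successProb U pr M c (padX k (xs l X) (xs l X')) (padY m y)) (P : ℕ → Prop)
    (hP : ∀ y' : List (List Bool), Valid U pr c (padX k (xs l X) (xs l X')) (padY m y) y' →
      P (encode y'.headI)) :
    δ * 2 ^ Rb M k p C l ≤
      (((range (Wd M k p C l)).filter (fun w => P (Gf M k p C l X X' w))).card : ℝ) := by
  obtain ⟨v, hv, hvl⟩ := vlist_surj p l _ hplen hprof
  have hin : input U pr (padX k (xs l X) (xs l X')) (padY m y) = inp k p C l X X' v := by
    unfold input inp
    rw [hvl, totalLength_pad k m C l X X' y hy]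
  unfold successProb at hs
  rw [hin] at hs
  obtain ⟨r, hr⟩ : ∃ r, r = M.coins (inp k p C l X X' v) := ⟨_, rfl⟩
  obtain ⟨R, hR⟩ : ∃ R, R = Rb M k p C l := ⟨_, rfl⟩
  rw [← hr] at hs
  rw [← hR]
  have hrR : r ≤ R := by rw [hr, hR]; exact coins_le_Rb M k p C l X X' v hX hX' hv
  rw [le_div_iff₀ (by positivity)] at hs
  set Q : List Bool → Prop := fun z => P (encode (M.run (inp k p C l X X' v, z)).headI) with hQ
  have h1 : Nat.card {z : Fin r → Bool // Valid U pr c (padX k (xs l X) (xs l X')) (padY m y)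
      (M.run (inp k p C l X X' v, List.ofFn z))} ≤
      Nat.card {z : Fin r → Bool // Q (List.ofFn z)} := by
    apply Nat.card_le_card_of_injective
      (fun z => (⟨z.1, hP _ z.2⟩ : {z : Fin r → Bool // Q (List.ofFn z)}))
    intro z z' h
    apply Subtype.ext
    simpa using h
  have h2 := coins_le hrR Q
  have h3 : ((range (2 ^ R)).filter (fun w => Q (bitsOf r w))).card ≤
      ((range (Wd M k p C l)).filter (fun w => P (Gf M k p C l X X' w))).card := by
    apply card_le_card_of_injOn (fun w => v * 2 ^ R + w)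
    · intro w hw
      rw [mem_coe, mem_filter, mem_range] at hw
      rw [mem_coe, mem_filter, mem_range]
      have e1 : (v * 2 ^ R + w) / 2 ^ R = v := by
        rw [mul_comm, Nat.mul_add_div (by positivity), Nat.div_eq_of_lt hw.1, add_zero]
      have e2 : (v * 2 ^ R + w) % 2 ^ R = w := by
        rw [mul_comm, Nat.mul_add_mod, Nat.mod_eq_of_lt hw.1]
      constructor
      · unfold Wd
        rw [← hR]
        calc v * 2 ^ R + w < v * 2 ^ R + 2 ^ R := by omega
          _ = (v + 1) * 2 ^ R := by ring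
          _ ≤ _ := Nat.mul_le_mul_right _ hv
      · unfold Gf
        rw [← hR, e1, e2, ← hr]
        exact hw.2
    · intro w _ w' _ h
      simpa using h
  have h4 : (2 : ℝ) ^ R = 2 ^ (R - r) * 2 ^ r := by
    rw [← pow_add]; congr 1; omega
  calc δ * 2 ^ R = 2 ^ (R - r) * (δ * 2 ^ r) := by rw [h4]; ring
    _ ≤ 2 ^ (R - r) * (Nat.card {z : Fin r → Bool //
      Valid U pr c (padX k (xs l X) (xs l X')) (padY m y)
        (M.run (inp k p C l X X' v, List.ofFn z))} : ℝ) := by
        gcongr
    _ ≤ 2 ^ (R - r) * (Nat.card {z : Fin r → Bool // Q (List.ofFn z)} : ℝ) := by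
        gcongr
    _ ≤ (((range (2 ^ R)).filter (fun w => Q (bitsOf r w))).card : ℝ) := by
        exact_mod_cast h2
    _ ≤ _ := by exact_mod_cast h3

/-- what a valid answer looks like -/
theorem valid_pad {c : ℝ} {k m : ℕ} (hk : 2 ≤ k) (hm : 1 ≤ m) {x1 x2 y : List Bool}
    {y' : List (List Bool)} (h : Valid U pr c (padX k x1 x2) (padY m y) y') {b : ℝ}
    (hb : c * Real.log (totalLength (padX k x1 x2 ++ padY m y)) ≤ b) :
    (KC U y : ℝ) - b ≤ KC U y'.headI ∧ (KC U (pr x1 y'.headI) : ℝ) ≤ KC U (pr x1 y) + b ∧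
      (KC U (pr x2 y'.headI) : ℝ) ≤ KC U (pr x2 y) + b := by
  have hxl := length_padX k hk x1 x2
  have hyl := length_padY m hm y
  have hlen : (padX k x1 x2 ++ padY m y).length = k + m := by
    rw [List.length_append, hxl, hyl]
  have hy'l : y'.length = m := by rw [← hyl]; exact h.1
  have g0 : ∀ w : List (List Bool), (padX k x1 x2 ++ w).getD 0 [] = x1 := by
    intro w; rfl
  have g1 : ∀ w : List (List Bool), (padX k x1 x2 ++ w).getD 1 [] = x2 := by
    intro w; rfl
  have gk : ∀ w : List (List Bool), w.length = m → (padX k x1 x2 ++ w).getD k [] = w.headI := by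
    intro w hw
    rw [List.getD_append_right _ _ _ _ (by rw [hxl]), hxl, Nat.sub_self]
    cases w with
    | nil => simp at hw; omega
    | cons a w => rfl
  have e1 := valid_entry h (S := [k]) (by rw [hlen]; exact singleton_mem_idxs (by omega))
  have e2 := valid_entry h (S := [0, k]) (by
    rw [hlen]; exact pair_mem_idxs (by omega) (by omega))
  have e3 := valid_entry h (S := [1, k]) (by
    rw [hlen]; exact pair_mem_idxs (by omega) (by omega))
  simp only [List.map_cons, List.map_nil, tupleCode, g0, g1, gk _ hy'l, gk _ hyl] at e1 e2 e3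
  have hh : (padY m y).headI = y := rfl
  rw [hh] at e1 e2 e3
  rw [abs_le] at e1 e2 e3
  refine ⟨by linarith, by linarith, by linarith⟩

end Pool.Agent.Lib.MP_eed1a0_lc
end

section

/-! The main theorem. -/

namespace Pool.Agent.Lib.MP_eed1a0_lc

open Finset Encodable

variable {U : List Bool →. List Bool} {pr : List Bool → List Bool → List Bool}

theorem main (hU : IsOptimal U) (hpr : Computable₂ pr)
    (hinj : ∀ a b a' b', pr a b = pr a' b' → a = a' ∧ b = b')
    (k m : ℕ) (hk : 2 ≤ k) (hm : 1 ≤ m)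
    (M : RandAlg) (c δ : ℝ) (hδ : 0 < δ) (g N₀ : ℕ) :
    ∃ x y : List (List Bool), x.length = k ∧ y.length = m ∧ N₀ ≤ totalLength (x ++ y) ∧
      successProb U pr M c x y < δ / (totalLength (x ++ y) : ℝ) ^ g := by
  classical
  by_contra hcon
  push Not at hcon
  obtain ⟨c0, hc0⟩ := exists_nat_ge |c|
  obtain ⟨p, hp⟩ : ∃ p, p = (idxs (k + m)).length := ⟨_, rfl⟩
  obtain ⟨D, hD⟩ : ∃ D, D = 2 * c0 + 3 * p + 3 * g + 1 := ⟨_, rfl⟩
  obtain ⟨C, hC⟩ : ∃ C, C = D + c0 + 1 := ⟨_, rfl⟩
  obtain ⟨d1, hd1⟩ := exists_tight hU hpr M k p C D (by omega)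
  obtain ⟨d3, hd3⟩ := exists_KC_popular_le M k p C D hU (by omega)
  obtain ⟨u, hu⟩ := exists_crude_all hU hpr M k m p C D (by omega) (idxs (k + m))
  obtain ⟨n1, hn1⟩ : ∃ n1 : ℕ, (2 : ℝ) ^ (12 + 2 * d1 + 4 * c0 + 6 * g) / δ ^ 3 < 2 ^ n1 :=
    pow_unbounded_of_one_lt _ (by norm_num)
  obtain ⟨l, hl⟩ : ∃ l, l = N₀ + n1 + (2 * (C + D)) + u + 4 + (d3 + 1 + 2 * c0 + 1) := ⟨_, rfl⟩
  have hl1 : (2 * (C + D)) * l + u < 2 ^ l := lin_lt_two_pow _ _ _ (by omega)
  have hl1' : (2 * (C + D)) * l = (C + D) * l + (C + D) * l := by ring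
  have hl2 : (C + D) * l ≤ 2 ^ l := by omega
  have hl0 : 4 ≤ l := by omega
  have hN : N₀ < 2 ^ l := lt_of_le_of_lt (by omega : N₀ ≤ l) Nat.lt_two_pow_self
  obtain ⟨w, hw⟩ : ∃ w, w = sel M k p C D l := ⟨_, rfl⟩
  obtain ⟨⟨⟨hq1, hq2⟩, hin1, hin2⟩, hfool⟩ := good_sel M k p C D hl2
  rw [← hw] at hq1 hq2 hin1 hin2 hfool
  have hinj1 := injCount_eq_zero.1 (Nat.le_zero.1 hin1)
  have hinj2 := injCount_eq_zero.1 (Nat.le_zero.1 hin2)
  have hq0 : 0 < w.1 := lt_of_lt_of_le (by positivity) hq1
  have hsE : ∀ i, sE w i < 2 ^ (2 ^ l + 1) := fun i =>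
    lt_of_lt_of_le (Nat.mod_lt _ hq0) hq2
  have htE : ∀ i, tE w i < 2 ^ (2 ^ l + 1) := fun i =>
    lt_of_lt_of_le (Nat.mod_lt _ hq0) hq2
  obtain ⟨A, hA⟩ : ∃ A, A = 2 ^ (C * l) := ⟨_, rfl⟩
  obtain ⟨B, hB⟩ : ∃ B, B = 2 ^ (D * l) := ⟨_, rfl⟩
  rw [← hA, ← hB] at hinj1 hinj2 hfool
  have hA0 : 0 < A := by rw [hA]; positivity
  have hB0 : 0 < B := by rw [hB]; positivity
  have hAB : A * B = 2 ^ ((C + D) * l) := by rw [hA, hB, ← pow_add]; congr 1; ring
  have hidx : ∀ a < A, ∀ b < B, a * B + b < 2 ^ ((C + D) * l) := by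
    intro a ha b hb
    rw [← hAB]
    calc a * B + b < a * B + B := by omega
      _ = (a + 1) * B := by ring
      _ ≤ A * B := Nat.mul_le_mul_right _ ha
  have hdiv : ∀ a b, b < B → (a * B + b) / B = a := by
    intro a b hb
    rw [mul_comm, Nat.mul_add_div hB0, Nat.div_eq_of_lt hb, add_zero]
  obtain ⟨m1, hm1⟩ : ∃ m1, m1 = (C + D) * l + d1 + c0 * (l + 2) := ⟨_, rfl⟩
  -- total length and its logarithm
  have hylen : ∀ a, (lab C l a).length = C * l := by
    intro a; unfold lab; rw [length_bitsOf]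
  have hlen : ∀ X X' a, totalLength (padX k (xs l X) (xs l X') ++ padY m (lab C l a)) =
      nTot C l := fun X X' a => totalLength_pad k m C l X X' _ (hylen a)
  have hCl : C * l < 2 ^ l := by
    have : C * l ≤ (C + D) * l := Nat.mul_le_mul_right _ (by omega)
    omega
  have hnT : nTot C l ≤ 2 ^ (l + 2) := by
    unfold nTot
    have : 2 ^ (l + 2) = 4 * 2 ^ l := by ring
    have : 2 ≤ 2 ^ l := by
      calc 2 = 2 ^ 1 := by norm_num
        _ ≤ 2 ^ l := Nat.pow_le_pow_right (by norm_num) (by omega)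
    omega
  have hnT1 : 1 ≤ nTot C l := by unfold nTot; omega
  have hlog : c * Real.log (nTot C l : ℕ) ≤ c0 * (l + 2) := by
    have h1 : 0 ≤ Real.log (nTot C l : ℕ) := Real.log_nonneg (by exact_mod_cast hnT1)
    have h2 : Real.log (nTot C l : ℕ) ≤ l + 2 := by
      calc Real.log (nTot C l : ℕ) ≤ Real.log ((2 : ℝ) ^ (l + 2)) := by
            apply Real.log_le_log
            · exact_mod_cast hnT1
            · exact_mod_cast hnT
        _ = ((l + 2 : ℕ) : ℝ) * Real.log 2 := Real.log_pow _ _
        _ ≤ ((l + 2 : ℕ) : ℝ) * 1 := by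
            gcongr
            have := Real.log_two_lt_d9
            linarith
        _ = l + 2 := by push_cast; ring
    calc c * Real.log (nTot C l : ℕ) ≤ |c| * Real.log (nTot C l : ℕ) := by
          gcongr
          exact le_abs_self c
      _ ≤ c0 * (l + 2) := by gcongr
  -- the lower bound for the success probability
  obtain ⟨δ', hδ'⟩ : ∃ δ', δ' = δ / 2 ^ (g * (l + 2)) := ⟨_, rfl⟩
  have hδ'0 : 0 < δ' := by rw [hδ']; positivity
  have hδn : δ' ≤ δ / ((nTot C l : ℕ) : ℝ) ^ g := by
    rw [hδ']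
    have h1 : ((nTot C l : ℕ) : ℝ) ^ g ≤ 2 ^ (g * (l + 2)) := by
      calc ((nTot C l : ℕ) : ℝ) ^ g ≤ ((2 : ℝ) ^ (l + 2)) ^ g := by
            gcongr
            exact_mod_cast hnT
        _ = 2 ^ (g * (l + 2)) := by rw [← pow_mul]; congr 1; ring
    have h2 : (0 : ℝ) < ((nTot C l : ℕ) : ℝ) ^ g := by
      have : (0 : ℝ) < (nTot C l : ℕ) := by exact_mod_cast hnT1
      positivity
    gcongr
  -- good labels
  obtain ⟨Gd, hGd⟩ : ∃ Gd, Gd = (range A).filter (fun a => C * l ≤ KC U (lab C l a) + 1) :=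
    ⟨_, rfl⟩
  have hcard : A ≤ 2 * Gd.card := by
    rw [hGd, hA]
    exact card_good_labels hU C l
      (le_trans (by norm_num) (Nat.mul_le_mul (by omega : 1 ≤ C) hl0))
  have hW0 : 0 < Wd M k p C l := by unfold Wd; positivity
  have hfinal := core_bound w.1 A B (Wd M k p C l) (sE w) (tE w) (Gf M k p C l) hA0 hB0 hW0
    (fun i => Eset U pr (xs l (sE w i)) m1) (fun i => Eset U pr (xs l (tE w i)) m1)
    (2 ^ (m1 + 1)) (by positivity) (sum_Eset_le hU hinj hinj1 hsE) (sum_Eset_le hU hinj hinj2 htE)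
    hfool Gd (by rw [hGd]; exact filter_subset _ _) hcard (δ' / 2 ^ (p * l)) (by positivity) ?_
  · -- the final numerical contradiction
    have h1 : (A : ℝ) ^ 2 * B ^ 3 * (δ' / 2 ^ (p * l)) ^ 3 * 2 ^ (6 * g) =
        2 ^ (2 * (C + D) * l + 2 * c0 * l) * (2 ^ l * δ ^ 3) := by
      rw [hA, hB, hδ', div_div, ← pow_add, div_pow, ← pow_mul]
      push_cast
      rw [← pow_mul, ← pow_mul, ← pow_add, mul_div_assoc', div_mul_eq_mul_div,
        div_eq_iff (by positivity)]
      have : (2 : ℝ) ^ (C * l * 2 + D * l * 3) * 2 ^ (6 * g) =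
          2 ^ (2 * (C + D) * l + 2 * c0 * l) * 2 ^ l * 2 ^ ((g * (l + 2) + p * l) * 3) := by
        rw [← pow_add, ← pow_add, ← pow_add]
        congr 1
        rw [hD]
        ring
      calc (2 : ℝ) ^ (C * l * 2 + D * l * 3) * δ ^ 3 * 2 ^ (6 * g)
          = ((2 : ℝ) ^ (C * l * 2 + D * l * 3) * 2 ^ (6 * g)) * δ ^ 3 := by ring
        _ = _ := by rw [this]; ring
    have h2 : (1024 : ℝ) * ((2 ^ (m1 + 1) : ℕ) : ℝ) ^ 2 * 2 ^ (6 * g) =
        2 ^ (2 * (C + D) * l + 2 * c0 * l) * 2 ^ (12 + 2 * d1 + 4 * c0 + 6 * g) := by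
      push_cast
      rw [← pow_mul, ← pow_add]
      have : (1024 : ℝ) = 2 ^ 10 := by norm_num
      rw [this, ← pow_add, ← pow_add]
      congr 1
      rw [hm1]
      ring
    have hfinal2 := mul_le_mul_of_nonneg_right hfinal (by positivity : (0 : ℝ) ≤ 2 ^ (6 * g))
    rw [h1, h2] at hfinal2
    have h3 : (2 : ℝ) ^ l * δ ^ 3 ≤ 2 ^ (12 + 2 * d1 + 4 * c0 + 6 * g) :=
      le_of_mul_le_mul_left hfinal2 (by positivity)
    have h4 : (2 : ℝ) ^ (12 + 2 * d1 + 4 * c0 + 6 * g) < 2 ^ n1 * δ ^ 3 := by
      rwa [div_lt_iff₀ (by positivity)] at hn1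
    have h5 : (2 : ℝ) ^ n1 ≤ 2 ^ l := pow_le_pow_right₀ (by norm_num) (by omega)
    have h6 : (2 : ℝ) ^ n1 * δ ^ 3 ≤ 2 ^ l * δ ^ 3 := by gcongr
    linarith
  · intro a ha b hb b' hb'
    rw [hGd, mem_filter, mem_range] at ha
    obtain ⟨haA, haK⟩ := ha
    obtain ⟨X, hX⟩ : ∃ X, X = sE w (a * B + b) := ⟨_, rfl⟩
    obtain ⟨X', hX'⟩ : ∃ X', X' = tE w (a * B + b') := ⟨_, rfl⟩
    obtain ⟨y, hy⟩ : ∃ y, y = lab C l a := ⟨_, rfl⟩
    rw [← hX, ← hX']
    rw [← hy] at haK
    have hX2 : X < 2 ^ (2 ^ l + 1) := by rw [hX]; exact hsE _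
    have hX2' : X' < 2 ^ (2 ^ l + 1) := by rw [hX']; exact htE _
    have hylen' : y.length = C * l := by rw [hy]; exact hylen a
    have hi := hidx a haA b hb
    have hj := hidx a haA b' hb'
    have hllen : (padX k (xs l X) (xs l X') ++ padY m y).length = k + m := by
      rw [List.length_append, length_padX k hk, length_padY m hm]
    have hplen : (profile U pr (padX k (xs l X) (xs l X') ++ padY m y)).length = p := by
      rw [length_profile, hllen, hp]
    have hprof : ∀ n ∈ profile U pr (padX k (xs l X) (xs l X') ++ padY m y), n < 2 ^ l := by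
      intro n hn
      rw [profile_eq, hllen, List.mem_map] at hn
      obtain ⟨S, hS, rfl⟩ := hn
      have v1 := hu S hS l _ hi _ hj
      rw [← hB, hdiv a b hb, ← hw, ← hX, ← hX', ← hy] at v1
      omega
    have hs : δ' ≤ successProb U pr M c (padX k (xs l X) (xs l X')) (padY m y) := by
      have h1 := hcon (padX k (xs l X) (xs l X')) (padY m y) (length_padX k hk _ _)
        (length_padY m hm _)
      rw [hy, hlen] at h1
      rw [hy]
      refine hδn.trans (h1 ?_)
      unfold nTot
      omega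
    have htr := transfer M k m p C l X X' hX2 hX2' y hylen' hplen hprof c δ' hs
      (fun n => n ∈ Eset U pr (xs l X) m1 ∧ n ∈ Eset U pr (xs l X') m1 ∧
        ¬ Pop w.1 B (Wd M k p C l) (Gf M k p C l) n) ?_
    · have h1 : δ' / 2 ^ (p * l) * (Wd M k p C l : ℝ) = δ' * 2 ^ Rb M k p C l := by
        unfold Wd
        push_cast
        field_simp
      rw [h1]
      refine htr.trans (le_of_eq ?_)
      congr 2
      ext x
      simp only [mem_filter]
    · intro y' hval
      obtain ⟨k1, k2, k3⟩ := valid_pad hk hm hval (b := c0 * (l + 2))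
        (by rw [hy, hlen]; exact hlog)
      have t1 := (hd1 l _ hi).1
      have t2 := (hd1 l _ hj).2
      rw [← hB, hdiv a b hb, ← hw, ← hX, ← hy] at t1
      rw [← hB, hdiv a b' hb', ← hw, ← hX', ← hy] at t2
      refine ⟨?_, ?_, ?_⟩
      · rw [mem_Eset hU hinj]
        refine ⟨_, rfl, ?_⟩
        have t1' : (KC U (pr (xs l X) y) : ℝ) ≤ (C + D) * l + d1 := by exact_mod_cast t1
        have : (KC U (pr (xs l X) y'.headI) : ℝ) ≤ (C + D) * l + d1 + c0 * (l + 2) := by
          linarith
        rw [hm1]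
        exact_mod_cast this
      · rw [mem_Eset hU hinj]
        refine ⟨_, rfl, ?_⟩
        have t2' : (KC U (pr (xs l X') y) : ℝ) ≤ (C + D) * l + d1 := by exact_mod_cast t2
        have : (KC U (pr (xs l X') y'.headI) : ℝ) ≤ (C + D) * l + d1 + c0 * (l + 2) := by
          linarith
        rw [hm1]
        exact_mod_cast this
      · intro hpop
        have t3 := hd3 l (by rw [← hw]; exact hq0) y'.headI
          (by unfold PopL; rw [← hw, ← hB]; exact hpop)
        have t3' : (KC U y'.headI : ℝ) ≤ D * l + d3 := by exact_mod_cast t3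
        have haK' : (C : ℝ) * l ≤ KC U y + 1 := by exact_mod_cast haK
        have hl' : (d3 : ℝ) + 1 + 2 * c0 + 1 ≤ l := by
          have : d3 + 1 + 2 * c0 + 1 ≤ l := by omega
          exact_mod_cast this
        have hC' : (C : ℝ) = D + c0 + 1 := by rw [hC]; push_cast; ring
        rw [hC'] at haK'
        have hexp : ((D : ℝ) + c0 + 1) * l = D * l + c0 * l + l := by ring
        rw [hexp] at haK'
        have hexp2 : (c0 : ℝ) * (l + 2) = c0 * l + 2 * c0 := by ring
        rw [hexp2] at k1
        linarith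

end Pool.Agent.Lib.MP_eed1a0_lc
end
end

section

/-! Optimal decompressors exist (so the hypotheses of the main theorem can be met). -/

namespace Pool.Agent.Lib.MP_eed1a0_lc

open Encodable Nat.Partrec

/-- the standard optimal decompressor: `1^k 0 q` runs the `k`-th program on `q` -/
def stdU (p : List Bool) : Part (List Bool) :=
  (Code.eval (Denumerable.ofNat Code (p.takeWhile id).length) (encode (p.dropWhile id).tail)).bind
    (fun n => (decode n : Option (List Bool)))

theorem partrec_stdU : Partrec stdU := by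
  have h1 : Computable (fun p : List Bool => Denumerable.ofNat Code (p.takeWhile id).length) :=
    (Computable.ofNat Code).comp
      (Primrec.list_length.comp (Primrec.list_takeWhile Primrec.id)).to_comp
  have h2 : Computable (fun p : List Bool => encode (p.dropWhile id).tail) :=
    Computable.encode.comp
      (Primrec.list_tail.comp (Primrec.list_dropWhile Primrec.id)).to_comp
  have h3 : Partrec (fun p : List Bool => Code.eval (Denumerable.ofNat Code
      (p.takeWhile id).length) (encode (p.dropWhile id).tail)) :=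
    Partrec₂.comp Code.eval_part h1 h2
  have h4 : Partrec₂ (fun (_ : List Bool) (n : ℕ) =>
      ((decode n : Option (List Bool)) : Part (List Bool))) :=
    (Computable.ofOption (Computable.decode.comp Computable.snd))
  exact h3.bind h4

theorem isOptimal_stdU : IsOptimal stdU := by
  refine ⟨partrec_stdU, fun V hV => ?_⟩
  have hV' : Nat.Partrec (fun n => Part.bind ↑(decode (α := List Bool) n)
      (fun a => (V a).map encode)) := hV
  obtain ⟨cd, hcd⟩ := Code.exists_code.1 hV'
  refine ⟨encode cd + 1, fun p z hz => ⟨List.replicate (encode cd) true ++ false :: p, ?_, ?_⟩⟩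
  · unfold stdU
    have e1 : (List.replicate (encode cd) true ++ false :: p).takeWhile id =
        List.replicate (encode cd) true := by
      rw [List.takeWhile_append_of_pos]
      · simp
      · intro a ha
        rw [List.mem_replicate] at ha
        simp [ha.2]
    have e2 : ((List.replicate (encode cd) true ++ false :: p).dropWhile id).tail = p := by
      rw [List.dropWhile_append_of_pos]
      · simp
      · intro a ha
        rw [List.mem_replicate] at ha
        simp [ha.2]
    rw [e1, e2, List.length_replicate, Denumerable.ofNat_encode, hcd]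
    simp only [encodek, Part.coe_some, Part.bind_some, Part.mem_bind_iff, Part.mem_map_iff]
    refine ⟨encode z, ⟨z, hz, rfl⟩, ?_⟩
    simp
  · simp
    omega

/-- There is an optimal decompressor. -/
theorem exists_isOptimal : ∃ U, IsOptimal U := ⟨stdU, isOptimal_stdU⟩

/-- A computable injective pairing of strings. -/
def stdPair (a b : List Bool) : List Bool := List.replicate a.length true ++ false :: (a ++ b)

theorem stdPair_injective (a b a' b' : List Bool) (h : stdPair a b = stdPair a' b') :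
    a = a' ∧ b = b' := by
  unfold stdPair at h
  have key : ∀ (n : ℕ) (w : List Bool),
      (List.replicate n true ++ false :: w).takeWhile id = List.replicate n true := by
    intro n w
    rw [List.takeWhile_append_of_pos]
    · simp
    · intro a ha
      rw [List.mem_replicate] at ha
      simp [ha.2]
  have h1 := congrArg (List.takeWhile id) h
  rw [key, key] at h1
  have h2 : a.length = a'.length := by
    have := congrArg List.length h1
    simpa using this
  rw [h2] at h
  have h3 := List.append_cancel_left h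
  rw [List.cons.injEq] at h3
  exact List.append_inj h3.2 h2

end Pool.Agent.Lib.MP_eed1a0_lc
end
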